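import Mathlib

/-!
# Increasing half period does not force the cut locus into the opposite half meridian

The metric is `g = dr² + m(r)² dθ²`, in the latitude `s` given by
`r = π/2 + s + sin (2 s) / 5 + sin (4 s) / 20`, with `m = (4/5) cos s`.  Its half period function is
`π (1 + κ³)`, `κ = (5/4) ν`.  The geodesic from the equatorial point `p` with `κ = 1/10` reaches, at
a point with longitude `< π`, a length larger than that of the path over the north pole.  So its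
cut point (which exists, after a positive time) has longitude in `(0, π)`.
-/

open Real Set Filter Topology MeasureTheory
open scoped ContDiff

namespace Pool.Agent.Results.MP_e92360_gt.CutBranch

/-! ### The objects of the statement -/

/-- Euclidean three-space, in which the unit sphere `{x | ‖x‖ = 1}` is the underlying 2-sphere. -/
abbrev E3 := EuclideanSpace ℝ (Fin 3)

/-- The point of the unit sphere with polar coordinates `(r, θ)` about the south pole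
`(0, 0, -1)` (which is `r = 0`; the north pole is `r = π`). -/
noncomputable def polarPt (r θ : ℝ) : E3 := !₂[sin r * cos θ, sin r * sin θ, -cos r]

/-- The norm of a tangent vector `v` at the point `x` of the unit sphere for the metric
`g = dr² + m(r)² dθ²`: with `ρ² = x₀² + x₁² = sin² r` the round metric is
`|v|² = dr(v)² + ρ² dθ(v)²`, where `dθ(v) = (x₀ v₁ - x₁ v₀) / ρ²`, so
`g(v, v) = |v|² + (m(r)² - ρ²) dθ(v)²`.  At the two poles the last term is `0`, as it should be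
since `m'(0) = 1`. -/
noncomputable def speed (m : ℝ → ℝ) (x v : E3) : ℝ :=
  √(‖v‖ ^ 2 + (m (arccos (-x 2)) ^ 2 - (x 0 ^ 2 + x 1 ^ 2)) / (x 0 ^ 2 + x 1 ^ 2) ^ 2 *
    (x 0 * v 1 - x 1 * v 0) ^ 2)

/-- `PathLen m x y ℓ`: there is a piecewise `C¹` path on the sphere from `x` to `y` of `g`-length
`ℓ`, that is a finite concatenation of `C¹` arcs (parametrised by `[0, 1]`), the length of an arc
`γ` being `∫₀¹ |γ'(t)|_g dt`.  (The integrability condition holds for every `C¹` arc when `m` is the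
profile of a smooth metric, the speed being continuous.) -/
inductive PathLen (m : ℝ → ℝ) : E3 → E3 → ℝ → Prop
  | arc (γ : ℝ → E3) (hγ : ContDiff ℝ 1 γ) (hS : ∀ t, ‖γ t‖ = 1)
      (hi : IntervalIntegrable (fun t => speed m (γ t) (deriv γ t)) volume 0 1) :
      PathLen m (γ 0) (γ 1) (∫ t in (0:ℝ)..1, speed m (γ t) (deriv γ t))
  | trans {x y z : E3} {a b : ℝ} (h₁ : PathLen m x y a) (h₂ : PathLen m y z b) : PathLen m x z (a + b)

/-- The Riemannian distance of `g`: the infimum of the lengths of piecewise `C¹` paths. -/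
noncomputable def rdist (m : ℝ → ℝ) (x y : E3) : ℝ := sInf {L | PathLen m x y L}

/-- `γ : ℝ → S²` is a unit speed geodesic of `g = dr² + m(r)² dθ²`: it is `C²`, lies on the sphere,
has `g`-speed `1`, and wherever it is not at a pole its polar coordinates satisfy the geodesic
equations `r'' = m(r) m'(r) θ'²` and `θ'' = -2 (m'(r)/m(r)) r' θ'`. -/
def IsUnitGeodesic (m : ℝ → ℝ) (γ : ℝ → E3) : Prop :=
  ContDiff ℝ 2 γ ∧ (∀ t, ‖γ t‖ = 1) ∧ (∀ t, speed m (γ t) (deriv γ t) = 1) ∧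
    ∀ t, (γ t 0 ≠ 0 ∨ γ t 1 ≠ 0) → ∃ r θ : ℝ → ℝ, ContDiffAt ℝ 2 r t ∧ ContDiffAt ℝ 2 θ t ∧
      (∀ᶠ u in 𝓝 t, r u ∈ Ioo 0 π ∧ γ u = polarPt (r u) (θ u)) ∧
      deriv (deriv r) t = m (r t) * deriv m (r t) * deriv θ t ^ 2 ∧
      deriv (deriv θ) t = -2 * (deriv m (r t) / m (r t)) * deriv r t * deriv θ t

/-- The open half meridian `θ = θ₀`, `0 < r < π`. -/
def halfMeridian (θ₀ : ℝ) : Set E3 := {q | ∃ r ∈ Ioo 0 π, q = polarPt r θ₀}

/-- The cut locus of `p`: all points `γ t₀`, `t₀ > 0`, where `γ` is a unit speed geodesic from `p`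
which is minimal on `[0, t₀]` but on no longer interval `[0, t]`. -/
def cutLocus (m : ℝ → ℝ) (p : E3) : Set E3 :=
  {q | ∃ γ : ℝ → E3, IsUnitGeodesic m γ ∧ γ 0 = p ∧ ∃ t₀ : ℝ, 0 < t₀ ∧ γ t₀ = q ∧
    rdist m p (γ t₀) = t₀ ∧ ∀ t, t₀ < t → rdist m p (γ t) ≠ t}

/-- The half period function `φ_m(ν) = 2 ∫_{m⁻¹(ν)}^{π/2} ν / (m √(m² - ν²)) dx`, where `m⁻¹` is the
inverse of `m` on `[0, π/2]`. -/
noncomputable def halfPeriod (m : ℝ → ℝ) (ν : ℝ) : ℝ :=
  2 * ∫ x in (Function.invFunOn m (Icc 0 (π / 2)) ν)..(π / 2), ν / (m x * √(m x ^ 2 - ν ^ 2))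

/-! ### The profile -/

theorem exists_inverse (F F' : ℝ → ℝ) (hF : ContDiff ℝ ⊤ F) (hd : ∀ x, HasDerivAt F (F' x) x)
    (c : ℝ) (hc : 0 < c) (hpos : ∀ x, c ≤ F' x) :
    ∃ G : ℝ → ℝ, ContDiff ℝ ⊤ G ∧ (∀ x, G (F x) = x) ∧ (∀ y, F (G y) = y) ∧
      ∀ y, HasDerivAt G (1 / F' (G y)) y := by
  have hpos' : ∀ x, 0 < F' x := fun x => lt_of_lt_of_le hc (hpos x)
  have hmono : StrictMono F := strictMono_of_hasDerivAt_pos hd hpos'
  have hcont : Continuous F := hF.continuous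
  have hm2 : Monotone (fun x => F x - c * x) := by
    apply monotone_of_hasDerivAt_nonneg (f' := fun x => F' x - c)
    · intro x
      have := (hd x).fun_sub ((hasDerivAt_id' x).const_mul c)
      simpa using this
    · intro x
      have := hpos x
      simp only [Pi.zero_apply]
      linarith
  have hsurj : Function.Surjective F := by
    apply hcont.surjective
    · have h1 : Tendsto (fun x : ℝ => c * x + F 0) atTop atTop :=
        tendsto_atTop_add_const_right _ _ (tendsto_id.const_mul_atTop hc)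
      refine tendsto_atTop_mono' _ ?_ h1
      filter_upwards [eventually_ge_atTop (0:ℝ)] with x hx
      have := hm2 hx
      simp at this
      linarith
    · have h1 : Tendsto (fun x : ℝ => c * x + F 0) atBot atBot :=
        tendsto_atBot_add_const_right _ _ (tendsto_id.const_mul_atBot hc)
      refine tendsto_atBot_mono' _ ?_ h1
      filter_upwards [eventually_le_atBot (0:ℝ)] with x hx
      have := hm2 hx
      simp at this
      linarith
  let e : ℝ ≃o ℝ := hmono.orderIsoOfSurjective F hsurj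
  let f : ℝ ≃ₜ ℝ := e.toHomeomorph
  have hf : (f : ℝ → ℝ) = F := rfl
  have h1 : ∀ y, F (f.symm y) = y := fun y => f.apply_symm_apply y
  have h2 : ∀ x, f.symm (F x) = x := fun x => f.symm_apply_apply x
  refine ⟨f.symm, ?_, h2, h1, ?_⟩
  · exact f.contDiff_symm_deriv (f' := F') (fun x => (hpos' x).ne') hd hF
  · intro y
    have := HasDerivAt.of_local_left_inverse (f := F) (f' := F' (f.symm y)) (g := f.symm)
      f.symm.continuous.continuousAt (hd _) (hpos' _).ne' (Eventually.of_forall h1)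
    simpa [one_div] using this

noncomputable def X (s : ℝ) : ℝ := s + sin (2 * s) / 5 + sin (4 * s) / 20
noncomputable def P (s : ℝ) : ℝ := 4 / 5 * (1 - cos s ^ 2 + 2 * cos s ^ 4)

theorem P_ge (s : ℝ) : 7 / 10 ≤ P s := by
  unfold P
  nlinarith [sq_nonneg (cos s ^ 2 - 1 / 4)]

theorem P_pos (s : ℝ) : 0 < P s := by linarith [P_ge s]

theorem hasDerivAt_X (s : ℝ) : HasDerivAt X (P s) s := by
  unfold X
  have h2 : HasDerivAt (fun s : ℝ => sin (2 * s)) (cos (2 * s) * 2) s := by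
    have := ((hasDerivAt_id' s).const_mul 2).sin
    simpa using this
  have h4 : HasDerivAt (fun s : ℝ => sin (4 * s)) (cos (4 * s) * 4) s := by
    have := ((hasDerivAt_id' s).const_mul 4).sin
    simpa using this
  refine (((hasDerivAt_id' s).fun_add (h2.div_const 5)).fun_add (h4.div_const 20)).congr_deriv ?_
  unfold P
  have e4 : cos (4 * s) = 2 * (2 * cos s ^ 2 - 1) ^ 2 - 1 := by
    rw [show 4 * s = 2 * (2 * s) by ring, cos_two_mul, cos_two_mul]
  rw [e4, cos_two_mul]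
  ring

theorem contDiff_X : ContDiff ℝ ⊤ X := by
  unfold X
  fun_prop

noncomputable def Y : ℝ → ℝ :=
  Classical.choose (exists_inverse X P contDiff_X hasDerivAt_X (7/10) (by norm_num) P_ge)

theorem Y_spec : ContDiff ℝ ⊤ Y ∧ (∀ x, Y (X x) = x) ∧ (∀ y, X (Y y) = y) ∧
      ∀ y, HasDerivAt Y (1 / P (Y y)) y :=
  Classical.choose_spec (exists_inverse X P contDiff_X hasDerivAt_X (7/10) (by norm_num) P_ge)

theorem Y_X (x : ℝ) : Y (X x) = x := Y_spec.2.1 x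
theorem X_Y (x : ℝ) : X (Y x) = x := Y_spec.2.2.1 x
theorem contDiff_Y : ContDiff ℝ ⊤ Y := Y_spec.1
theorem hasDerivAt_Y (y : ℝ) : HasDerivAt Y (1 / P (Y y)) y := Y_spec.2.2.2 y

theorem X_neg (s : ℝ) : X (-s) = - X s := by
  unfold X
  rw [show 2 * -s = -(2*s) by ring, show 4 * -s = -(4*s) by ring, sin_neg, sin_neg]; ring

theorem X_add_pi (s : ℝ) : X (s + π) = X s + π := by
  unfold X
  have h1 : sin (2 * (s + π)) = sin (2 * s) := by
    rw [show 2 * (s + π) = 2 * s + 2 * π by ring, sin_add_two_pi]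
  have h2 : sin (4 * (s + π)) = sin (4 * s) := by
    rw [show 4 * (s + π) = 4 * s + 2 * π + 2 * π by ring, sin_add_two_pi, sin_add_two_pi]
  rw [h1, h2]; ring

theorem X_strictMono : StrictMono X := strictMono_of_hasDerivAt_pos hasDerivAt_X P_pos

theorem X_zero : X 0 = 0 := by simp [X]

theorem X_pi_div_two : X (π / 2) = π / 2 := by
  have h := X_add_pi (-(π / 2))
  rw [X_neg] at h
  have e : -(π / 2) + π = π / 2 := by ring
  rw [e] at h
  linarith

theorem Y_neg (x : ℝ) : Y (-x) = - Y x := by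
  have : X (- Y x) = - x := by rw [X_neg, X_Y]
  rw [← this, Y_X]

theorem Y_add_pi (x : ℝ) : Y (x + π) = Y x + π := by
  have : X (Y x + π) = x + π := by rw [X_add_pi, X_Y]
  rw [← this, Y_X]

theorem Y_zero : Y 0 = 0 := by
  have := Y_X 0
  rwa [X_zero] at this

theorem Y_pi_div_two : Y (π / 2) = π / 2 := by
  have := Y_X (π/2)
  rwa [X_pi_div_two] at this

theorem Y_strictMono : StrictMono Y :=
  strictMono_of_hasDerivAt_pos hasDerivAt_Y (fun _ => one_div_pos.2 (P_pos _))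

/-- the profile -/
noncomputable def prof (r : ℝ) : ℝ := 4 / 5 * cos (Y (r - π / 2))

theorem contDiff_prof : ContDiff ℝ ⊤ prof := by
  unfold prof
  have := contDiff_Y
  fun_prop

theorem hasDerivAt_prof (r : ℝ) :
    HasDerivAt prof (-(4 / 5) * sin (Y (r - π / 2)) / P (Y (r - π / 2))) r := by
  unfold prof
  have h1 : HasDerivAt (fun r : ℝ => r - π / 2) 1 r := (hasDerivAt_id' r).sub_const _
  have h2 : HasDerivAt (fun r : ℝ => Y (r - π / 2)) (1 / P (Y (r - π / 2)) * 1) r :=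
    (hasDerivAt_Y (r - π / 2)).comp r h1
  refine ((h2.cos).const_mul (4 / 5)).congr_deriv ?_
  ring

theorem prof_neg (r : ℝ) : prof (-r) = - prof r := by
  unfold prof
  have : Y (-r - π / 2) = -(Y (r - π / 2) + π) := by
    rw [← Y_add_pi, ← Y_neg]; congr 1; ring
  rw [this, cos_neg, cos_add_pi]; ring

theorem prof_pi_sub (r : ℝ) : prof (π - r) = prof r := by
  unfold prof
  have : Y (π - r - π / 2) = - Y (r - π / 2) := by
    rw [← Y_neg]; congr 1; ring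
  rw [this, cos_neg]

theorem deriv_prof_zero : deriv prof 0 = 1 := by
  rw [(hasDerivAt_prof 0).deriv]
  have h : Y (0 - π / 2) = -(π / 2) := by
    rw [zero_sub, Y_neg, Y_pi_div_two]
  rw [h]
  simp [P]

theorem prof_pos (r : ℝ) (hr : r ∈ Ioo 0 π) : 0 < prof r := by
  unfold prof
  have h1 : Y (-(π/2)) < Y (r - π / 2) := Y_strictMono (by linarith [hr.1])
  have h2 : Y (r - π / 2) < Y (π / 2) := Y_strictMono (by linarith [hr.2])
  rw [Y_neg, Y_pi_div_two] at h1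
  rw [Y_pi_div_two] at h2
  have := cos_pos_of_mem_Ioo ⟨h1, h2⟩
  positivity

theorem deriv_prof_pos (r : ℝ) (hr : r ∈ Ioo 0 (π / 2)) : 0 < deriv prof r := by
  rw [(hasDerivAt_prof r).deriv]
  have h1 : Y (-(π/2)) < Y (r - π / 2) := Y_strictMono (by linarith [hr.1])
  have h2 : Y (r - π / 2) < Y 0 := Y_strictMono (by linarith [hr.2])
  rw [Y_neg, Y_pi_div_two] at h1
  rw [Y_zero] at h2
  have h3 := sin_neg_of_neg_of_neg_pi_lt h2 (by linarith [pi_pos])
  have h4 := P_pos (Y (r - π / 2))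
  apply div_pos _ h4
  nlinarith

theorem prof_equator : prof (π / 2) = 4 / 5 := by
  simp [prof, Y_zero]

/-- longitude function of a geodesic -/
noncomputable def th (κ l : ℝ) : ℝ :=
  l - arctan ((1 - κ) * (sin l * cos l) / (cos l ^ 2 + κ * sin l ^ 2)) + κ ^ 3 * l +
    κ * (1 - κ ^ 2) * (sin l * cos l)

theorem hasDerivAt_th (κ : ℝ) (hκ : 0 < κ) (l : ℝ) :
    HasDerivAt (th κ) (κ * (1 / (cos l ^ 2 + κ ^ 2 * sin l ^ 2) - 1 +
      2 * (cos l ^ 2 + κ ^ 2 * sin l ^ 2))) l := by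
  unfold th
  have hD : 0 < cos l ^ 2 + κ * sin l ^ 2 := by
    rcases eq_or_ne (cos l) 0 with h | h
    · have := sin_sq_add_cos_sq l
      rw [h] at this ⊢
      nlinarith
    · positivity
  have hE : 0 < cos l ^ 2 + κ ^ 2 * sin l ^ 2 := by
    rcases eq_or_ne (cos l) 0 with h | h
    · have := sin_sq_add_cos_sq l
      rw [h] at this ⊢
      nlinarith [sq_pos_of_pos hκ]
    · positivity
  have hsc : HasDerivAt (fun l : ℝ => sin l * cos l) (cos l * cos l + sin l * (-sin l)) l :=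
    (hasDerivAt_sin l).mul (hasDerivAt_cos l)
  have hden : HasDerivAt (fun l : ℝ => cos l ^ 2 + κ * sin l ^ 2)
      (2 * cos l * (-sin l) + κ * (2 * sin l * cos l)) l := by
    have h1 := (hasDerivAt_cos l).fun_pow 2
    have h2 := ((hasDerivAt_sin l).fun_pow 2).const_mul κ
    refine (h1.fun_add h2).congr_deriv ?_
    norm_num
  have hq := ((hsc.const_mul (1 - κ)).fun_div hden hD.ne').arctan
  refine ((((hasDerivAt_id' l).fun_sub hq).fun_add ((hasDerivAt_id' l).const_mul (κ ^ 3))).fun_add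
    (hsc.const_mul (κ * (1 - κ ^ 2)))).congr_deriv ?_
  have hkey : (cos l ^ 2 + κ * sin l ^ 2) ^ 2 + ((1 - κ) * (sin l * cos l)) ^ 2 =
      cos l ^ 2 + κ ^ 2 * sin l ^ 2 := by
    have h4 : ∀ s c : ℝ, s ^ 2 + c ^ 2 = 1 → (c ^ 2 + κ * s ^ 2) ^ 2 + ((1 - κ) * (s * c)) ^ 2 =
      c ^ 2 + κ ^ 2 * s ^ 2 := by
      intro s c h
      have : (c ^ 2 + κ * s ^ 2) ^ 2 + ((1 - κ) * (s * c)) ^ 2 = (s ^ 2 + c ^ 2) * (c ^ 2 + κ ^ 2 * s ^ 2) := by
        ring
      rw [this, h, one_mul]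
    exact h4 _ _ (sin_sq_add_cos_sq l)
  have h5 : 1 + ((1 - κ) * (sin l * cos l) / (cos l ^ 2 + κ * sin l ^ 2)) ^ 2 =
      (cos l ^ 2 + κ ^ 2 * sin l ^ 2) / (cos l ^ 2 + κ * sin l ^ 2) ^ 2 := by
    rw [← hkey]; field_simp
  rw [h5]
  have hnum : (1 - κ) * (cos l * cos l + sin l * (-sin l)) * (cos l ^ 2 + κ * sin l ^ 2) -
      (1 - κ) * (sin l * cos l) * (2 * cos l * (-sin l) + κ * (2 * sin l * cos l)) =
      (1 - κ) * (cos l ^ 2 - κ * sin l ^ 2) := by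
    have h4 : ∀ s c : ℝ, s ^ 2 + c ^ 2 = 1 → (1 - κ) * (c * c + s * (-s)) * (c ^ 2 + κ * s ^ 2) -
      (1 - κ) * (s * c) * (2 * c * (-s) + κ * (2 * s * c)) = (1 - κ) * (c ^ 2 - κ * s ^ 2) := by
      intro s c h
      have : (1 - κ) * (c * c + s * (-s)) * (c ^ 2 + κ * s ^ 2) -
      (1 - κ) * (s * c) * (2 * c * (-s) + κ * (2 * s * c)) =
        (1 - κ) * (c ^ 2 - κ * s ^ 2) * (s ^ 2 + c ^ 2) := by ring
      rw [this, h, mul_one]
    exact h4 _ _ (sin_sq_add_cos_sq l)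
  rw [hnum]
  have h6 : 1 / ((cos l ^ 2 + κ ^ 2 * sin l ^ 2) / (cos l ^ 2 + κ * sin l ^ 2) ^ 2) *
      ((1 - κ) * (cos l ^ 2 - κ * sin l ^ 2) / (cos l ^ 2 + κ * sin l ^ 2) ^ 2) =
      (1 - κ) * (cos l ^ 2 - κ * sin l ^ 2) / (cos l ^ 2 + κ ^ 2 * sin l ^ 2) := by
    field_simp
  rw [h6]
  have h7 : 1 - (1 - κ) * (cos l ^ 2 - κ * sin l ^ 2) / (cos l ^ 2 + κ ^ 2 * sin l ^ 2) =
      κ / (cos l ^ 2 + κ ^ 2 * sin l ^ 2) := by
    have h4 : ∀ s c : ℝ, s ^ 2 + c ^ 2 = 1 → (c ^ 2 + κ ^ 2 * s ^ 2) - (1 - κ) * (c ^ 2 - κ * s ^ 2) = κ := by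
      intro s c h
      have : (c ^ 2 + κ ^ 2 * s ^ 2) - (1 - κ) * (c ^ 2 - κ * s ^ 2) = κ * (s ^ 2 + c ^ 2) := by ring
      rw [this, h, mul_one]
    rw [eq_div_iff hE.ne', sub_mul, one_mul, div_mul_cancel₀ _ hE.ne']
    exact h4 _ _ (sin_sq_add_cos_sq l)
  rw [h7]
  linear_combination (-(κ + κ ^ 3)) * sin_sq_add_cos_sq l

/-! ### The half period -/

theorem halfPeriod_prof (ν : ℝ) (hν : ν ∈ Ioo 0 (4 / 5 : ℝ)) :
    halfPeriod prof ν = π * (1 + (5 / 4 * ν) ^ 3) := by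
  obtain ⟨κ, hκ⟩ : ∃ κ, κ = 5 / 4 * ν := ⟨_, rfl⟩
  have hν' : ν = 4 / 5 * κ := by rw [hκ]; ring
  have hκ0 : 0 < κ := by rw [hκ]; linarith [hν.1]
  have hκ1 : κ < 1 := by rw [hκ]; linarith [hν.2]
  rw [← hκ]
  obtain ⟨σ, hσ⟩ : ∃ σ, σ = √(1 - κ ^ 2) := ⟨_, rfl⟩
  have hσ2 : σ ^ 2 = 1 - κ ^ 2 := by rw [hσ]; exact sq_sqrt (by nlinarith)
  have hσ0 : 0 < σ := by rw [hσ]; exact sqrt_pos.2 (by nlinarith)
  obtain ⟨r₀, hr₀⟩ : ∃ r₀, r₀ = Function.invFunOn prof (Icc 0 (π / 2)) ν := ⟨_, rfl⟩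
  have hex : ∃ a ∈ Icc (0:ℝ) (π / 2), prof a = ν := by
    refine ⟨π / 2 - X (arccos κ), ⟨?_, ?_⟩, ?_⟩
    · have : X (arccos κ) ≤ X (π / 2) := X_strictMono.monotone (arccos_le_pi_div_two.2 hκ0.le)
      rw [X_pi_div_two] at this
      linarith
    · have : X 0 ≤ X (arccos κ) := X_strictMono.monotone (arccos_nonneg κ)
      rw [X_zero] at this
      linarith
    · unfold prof
      rw [show π / 2 - X (arccos κ) - π / 2 = - X (arccos κ) by ring, Y_neg, Y_X, cos_neg,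
        cos_arccos (by linarith) hκ1.le, hν']
  have hmem : r₀ ∈ Icc (0:ℝ) (π / 2) := by rw [hr₀]; exact Function.invFunOn_mem hex
  have heq : prof r₀ = ν := by rw [hr₀]; exact Function.invFunOn_eq hex
  have hy₀ : cos (Y (r₀ - π / 2)) = κ := by
    unfold prof at heq
    linarith
  have hy₀l : -(π / 2) ≤ Y (r₀ - π / 2) := by
    have := Y_strictMono.monotone (show -(π/2) ≤ r₀ - π / 2 by linarith [hmem.1])
    rwa [Y_neg, Y_pi_div_two] at this
  have hy₀r : Y (r₀ - π / 2) ≤ 0 := by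
    have := Y_strictMono.monotone (show r₀ - π / 2 ≤ 0 by linarith [hmem.2])
    rwa [Y_zero] at this
  have hsin₀ : sin (Y (r₀ - π / 2)) = - σ := by
    have h1 : sin (Y (r₀ - π / 2)) ^ 2 = σ ^ 2 := by
      rw [hσ2, ← hy₀, sin_sq]
    have h2 : sin (Y (r₀ - π / 2)) ≤ 0 := sin_nonpos_of_nonpos_of_neg_pi_le hy₀r (by linarith [pi_pos])
    nlinarith
  have hT : ∀ x ∈ Ioo r₀ (π / 2), HasDerivAt (fun x => th κ (arcsin (sin (Y (x - π / 2)) / σ)))
      (ν / (prof x * √(prof x ^ 2 - ν ^ 2))) x := by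
    intro x hx
    obtain ⟨y, hy⟩ : ∃ y, y = Y (x - π / 2) := ⟨_, rfl⟩
    have hyl : Y (r₀ - π / 2) < y := by rw [hy]; exact Y_strictMono (by linarith [hx.1])
    have hyr : y < 0 := by
      have := Y_strictMono (show x - π / 2 < 0 by linarith [hx.2])
      rwa [Y_zero, ← hy] at this
    have hcy : 0 < cos y := cos_pos_of_mem_Ioo ⟨by linarith, by linarith [pi_pos]⟩
    have hsl : - σ < sin y := by
      rw [← hsin₀]
      exact sin_lt_sin_of_lt_of_le_pi_div_two hy₀l (by linarith [pi_pos]) hyl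
    have hsr : sin y < 0 := sin_neg_of_neg_of_neg_pi_lt hyr (by linarith [pi_pos])
    have hu1 : sin y / σ ≠ -1 := by
      rw [Ne, div_eq_iff hσ0.ne']; linarith
    have hu2 : sin y / σ ≠ 1 := by
      rw [Ne, div_eq_iff hσ0.ne']; linarith
    have h1 : HasDerivAt (fun r : ℝ => r - π / 2) 1 x := (hasDerivAt_id' x).sub_const _
    have h2 : HasDerivAt (fun r : ℝ => Y (r - π / 2)) (1 / P (Y (x - π / 2)) * 1) x :=
      (hasDerivAt_Y (x - π / 2)).comp x h1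
    rw [← hy] at h2
    have h3 : HasDerivAt (fun r : ℝ => sin (Y (r - π / 2)) / σ) (cos y * (1 / P y * 1) / σ) x := by
      have := (h2.sin).div_const σ
      rwa [← hy] at this
    have h4 : HasDerivAt (fun r : ℝ => arcsin (sin (Y (r - π / 2)) / σ))
        (1 / √(1 - (sin y / σ) ^ 2) * (cos y * (1 / P y * 1) / σ)) x := by
      have h5 : HasDerivAt arcsin (1 / √(1 - (sin y / σ) ^ 2)) (sin (Y (x - π / 2)) / σ) := by
        rw [← hy]; exact hasDerivAt_arcsin hu1 hu2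
      exact h5.comp x h3
    have h6 := (hasDerivAt_th κ hκ0 (arcsin (sin (Y (x - π / 2)) / σ))).comp x h4
    refine h6.congr_deriv ?_
    rw [← hy]
    have hul : -1 ≤ sin y / σ := by rw [le_div_iff₀ hσ0]; linarith
    have hur : sin y / σ ≤ 1 := by rw [div_le_iff₀ hσ0]; linarith
    have hlt : 0 < 1 - (sin y / σ) ^ 2 := by
      rw [div_pow, sub_pos, div_lt_one (by positivity)]
      nlinarith
    have hcc : cos (arcsin (sin y / σ)) ^ 2 + κ ^ 2 * sin (arcsin (sin y / σ)) ^ 2 = cos y ^ 2 := by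
      rw [cos_sq', sin_arcsin hul hur]
      have : (sin y / σ) ^ 2 * σ ^ 2 = sin y ^ 2 := by field_simp
      nlinarith [sin_sq_add_cos_sq y]
    rw [hcc]
    have hm : prof x = 4 / 5 * cos y := by unfold prof; rw [← hy]
    rw [hm]
    have hdiff : 0 < cos y ^ 2 - κ ^ 2 := by
      nlinarith [sin_sq_add_cos_sq y]
    have hs1 : √((4 / 5 * cos y) ^ 2 - ν ^ 2) = 4 / 5 * √(cos y ^ 2 - κ ^ 2) := by
      rw [hν', show (4 / 5 * cos y) ^ 2 - (4 / 5 * κ) ^ 2 = (4 / 5) ^ 2 * (cos y ^ 2 - κ ^ 2) by ring,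
        sqrt_mul (by norm_num), sqrt_sq (by norm_num)]
    have hs2 : √(1 - (sin y / σ) ^ 2) = √(cos y ^ 2 - κ ^ 2) / σ := by
      rw [show 1 - (sin y / σ) ^ 2 = (cos y ^ 2 - κ ^ 2) / σ ^ 2 by
        rw [div_pow, eq_div_iff (by positivity), sub_mul, div_mul_cancel₀ _ (by positivity)]
        nlinarith [sin_sq_add_cos_sq y], sqrt_div hdiff.le, sqrt_sq hσ0.le]
    rw [hs1, hs2]
    have hq := sqrt_pos.2 hdiff
    have hP := P_pos y
    have hP2 : P y = 4 / 5 * (1 - cos y ^ 2 + 2 * cos y ^ 4) := rfl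
    have hne : √(cos y ^ 2 - κ ^ 2) ≠ 0 := hq.ne'
    have e1 : 1 / cos y ^ 2 - 1 + 2 * cos y ^ 2 = 5 / 4 * P y / cos y ^ 2 := by
      rw [hP2]; field_simp
    rw [e1, hν']
    have hne3 := hP.ne'
    field_simp
  have hcont : Continuous (fun x => th κ (arcsin (sin (Y (x - π / 2)) / σ))) := by
    have h1 : Continuous (th κ) := continuous_iff_continuousAt.2 fun l => (hasDerivAt_th κ hκ0 l).continuousAt
    have h2 : Continuous Y := contDiff_Y.continuous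
    exact h1.comp (continuous_arcsin.comp (((continuous_sin.comp (h2.comp (by fun_prop)))).div_const σ))
  have hpos : ∀ x ∈ Ioo r₀ (π / 2), 0 ≤ ν / (prof x * √(prof x ^ 2 - ν ^ 2)) := by
    intro x hx
    have : 0 < prof x := prof_pos x ⟨by linarith [hx.1, hmem.1], by linarith [hx.2, pi_pos]⟩
    have := hν.1
    positivity
  have hint : IntervalIntegrable (fun x => ν / (prof x * √(prof x ^ 2 - ν ^ 2))) volume r₀ (π / 2) := by
    rw [intervalIntegrable_iff_integrableOn_Ioc_of_le hmem.2]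
    exact intervalIntegral.integrableOn_deriv_of_nonneg hcont.continuousOn hT hpos
  have hI : ∫ x in r₀..(π / 2), ν / (prof x * √(prof x ^ 2 - ν ^ 2)) = π / 2 * (1 + κ ^ 3) := by
    rw [intervalIntegral.integral_eq_sub_of_hasDerivAt_of_le hmem.2 hcont.continuousOn hT hint]
    rw [hsin₀, sub_self, Y_zero, sin_zero, zero_div, arcsin_zero, neg_div, div_self hσ0.ne', arcsin_neg_one]
    simp [th]
    ring
  unfold halfPeriod
  rw [← hr₀, hI]
  ring

theorem halfPeriod_strictMono : StrictMonoOn (halfPeriod prof) (Ioo 0 (prof (π / 2))) := by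
  rw [prof_equator]
  intro a ha b hb hab
  rw [halfPeriod_prof a ha, halfPeriod_prof b hb]
  have h1 : (5 / 4 * a) ^ 3 < (5 / 4 * b) ^ 3 := by
    apply pow_lt_pow_left₀ (by linarith) (by linarith [ha.1]) (by norm_num)
  nlinarith [pi_pos]

/-! ### Paths and distance -/

theorem speed_nonneg (m : ℝ → ℝ) (x v : E3) : 0 ≤ speed m x v := sqrt_nonneg _

theorem PathLen.nonneg {m : ℝ → ℝ} {x y : E3} {L : ℝ} (h : PathLen m x y L) : 0 ≤ L := by
  induction h with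
  | arc γ hγ hS hi => exact intervalIntegral.integral_nonneg (by norm_num) fun t _ => speed_nonneg _ _ _
  | trans h₁ h₂ ih₁ ih₂ => linarith

theorem rdist_le {m : ℝ → ℝ} {x y : E3} {L : ℝ} (h : PathLen m x y L) : rdist m x y ≤ L :=
  csInf_le ⟨0, fun _ h => h.nonneg⟩ h

theorem rdist_triangle {m : ℝ → ℝ} {x y z : E3} {a b : ℝ} (h₁ : PathLen m x y a) (h₂ : PathLen m y z b) :
    rdist m x z ≤ rdist m x y + rdist m y z := by
  refine le_of_forall_pos_le_add fun ε hε => ?_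
  obtain ⟨L₁, hL₁, hlt₁⟩ := exists_lt_of_csInf_lt (s := {L | PathLen m x y L}) ⟨a, h₁⟩
    (show sInf {L | PathLen m x y L} < rdist m x y + ε / 2 by unfold rdist; linarith)
  obtain ⟨L₂, hL₂, hlt₂⟩ := exists_lt_of_csInf_lt (s := {L | PathLen m y z L}) ⟨b, h₂⟩
    (show sInf {L | PathLen m y z L} < rdist m y z + ε / 2 by unfold rdist; linarith)
  have := rdist_le (PathLen.trans hL₁ hL₂)
  linarith

theorem speed_smul (m : ℝ → ℝ) (x v : E3) (c : ℝ) : speed m x (c • v) = |c| * speed m x v := by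
  unfold speed
  rw [← sqrt_sq_eq_abs, ← sqrt_mul (sq_nonneg c)]
  congr 1
  rw [norm_smul, norm_eq_abs, mul_pow, sq_abs]
  simp only [PiLp.smul_apply, smul_eq_mul]
  ring

theorem pathLen_of_unit (m : ℝ → ℝ) (γ : ℝ → E3) (hγ : ContDiff ℝ 1 γ) (hS : ∀ t, ‖γ t‖ = 1)
    (hu : ∀ t, speed m (γ t) (deriv γ t) = 1) (a b : ℝ) : PathLen m (γ a) (γ b) |b - a| := by
  have hd : ∀ t, deriv (fun t => γ (a + (b - a) * t)) t = (b - a) • deriv γ (a + (b - a) * t) := by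
    intro t
    have h1 : HasDerivAt γ (deriv γ (a + (b - a) * t)) (a + (b - a) * t) :=
      (hγ.differentiable (by norm_num) _).hasDerivAt
    have h2 : HasDerivAt (fun t : ℝ => a + (b - a) * t) (b - a) t := by
      simpa using ((hasDerivAt_id' t).const_mul (b - a)).const_add a
    exact (h1.scomp t h2).deriv
  have hsp : (fun t => speed m (γ (a + (b - a) * t)) (deriv (fun t => γ (a + (b - a) * t)) t)) =
      fun _ => |b - a| := by
    funext t
    rw [hd, speed_smul, hu, mul_one]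
  have key := PathLen.arc (m := m) (fun t => γ (a + (b - a) * t))
    (hγ.comp (by fun_prop)) (fun t => hS _) (by rw [hsp]; exact intervalIntegrable_const)
  rw [hsp] at key
  simpa using key

theorem norm_sq_E3 (v : E3) : ‖v‖ ^ 2 = v 0 ^ 2 + v 1 ^ 2 + v 2 ^ 2 := by
  rw [EuclideanSpace.norm_sq_eq, Fin.sum_univ_three]
  simp [sq_abs]

@[simp] theorem polarPt_zero (r θ : ℝ) : polarPt r θ 0 = sin r * cos θ := rfl
@[simp] theorem polarPt_one (r θ : ℝ) : polarPt r θ 1 = sin r * sin θ := rfl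
@[simp] theorem polarPt_two (r θ : ℝ) : polarPt r θ 2 = -cos r := rfl

theorem norm_polarPt (r θ : ℝ) : ‖polarPt r θ‖ = 1 := by
  have : ‖polarPt r θ‖ ^ 2 = 1 := by
    rw [norm_sq_E3]
    simp only [polarPt_zero, polarPt_one, polarPt_two]
    linear_combination (sin r) ^ 2 * sin_sq_add_cos_sq θ + sin_sq_add_cos_sq r
  have h0 : 0 ≤ ‖polarPt r θ‖ := norm_nonneg _
  nlinarith

theorem hasDerivAt_vec {f g h : ℝ → ℝ} {f' g' h' t : ℝ} (hf : HasDerivAt f f' t)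
    (hg : HasDerivAt g g' t) (hh : HasDerivAt h h' t) :
    HasDerivAt (fun t => (!₂[f t, g t, h t] : E3)) !₂[f', g', h'] t := by
  have h1 : HasDerivAt (fun t => (![f t, g t, h t] : Fin 3 → ℝ)) ![f', g', h'] t := by
    rw [hasDerivAt_pi]
    intro i
    fin_cases i <;> simpa
  exact (PiLp.hasFDerivAt_toLp (𝕜 := ℝ) 2 _).comp_hasDerivAt t h1

theorem hasDerivAt_polarPt {r θ : ℝ → ℝ} {r' θ' t : ℝ} (hr : HasDerivAt r r' t)
    (hθ : HasDerivAt θ θ' t) :
    HasDerivAt (fun t => polarPt (r t) (θ t))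
      !₂[cos (r t) * r' * cos (θ t) - sin (r t) * sin (θ t) * θ',
        cos (r t) * r' * sin (θ t) + sin (r t) * cos (θ t) * θ', sin (r t) * r'] t := by
  unfold polarPt
  refine (hasDerivAt_vec ((hr.sin).fun_mul (hθ.cos)) ((hr.sin).fun_mul (hθ.sin)) (hr.cos.fun_neg)).congr_deriv ?_
  congr 1
  ext i
  fin_cases i
  · simp; ring
  · simp; ring
  · simp

theorem contDiff_polarPt {n : WithTop ℕ∞} {r θ : ℝ → ℝ} (hr : ContDiff ℝ n r) (hθ : ContDiff ℝ n θ) :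
    ContDiff ℝ n (fun t => polarPt (r t) (θ t)) := by
  rw [contDiff_euclidean]
  intro i
  fin_cases i
  · exact hr.sin.mul hθ.cos
  · exact hr.sin.mul hθ.sin
  · exact hr.cos.neg

/-- the speed of a curve given in polar coordinates away from the poles -/
theorem speed_polar (m : ℝ → ℝ) (r θ r' θ' : ℝ) (hr : r ∈ Ioo 0 π) :
    speed m (polarPt r θ) !₂[cos r * r' * cos θ - sin r * sin θ * θ',
        cos r * r' * sin θ + sin r * cos θ * θ', sin r * r'] = √(r' ^ 2 + m r ^ 2 * θ' ^ 2) := by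
  unfold speed
  rw [norm_sq_E3]
  have hs : 0 < sin r := sin_pos_of_mem_Ioo hr
  have harc : arccos (-(polarPt r θ 2)) = r := by
    rw [polarPt_two, neg_neg, arccos_cos hr.1.le hr.2.le]
  rw [harc]
  have hrho : (polarPt r θ 0) ^ 2 + (polarPt r θ 1) ^ 2 = sin r ^ 2 := by
    rw [polarPt_zero, polarPt_one]
    linear_combination (sin r) ^ 2 * sin_sq_add_cos_sq θ
  rw [hrho]
  congr 1
  simp only [polarPt_zero, polarPt_one, Matrix.cons_val_zero, Matrix.cons_val_one,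
    Matrix.cons_val]
  have hA : sin r * cos θ * (cos r * r' * sin θ + sin r * cos θ * θ') -
      sin r * sin θ * (cos r * r' * cos θ - sin r * sin θ * θ') = sin r ^ 2 * θ' := by
    linear_combination (sin r) ^ 2 * θ' * sin_sq_add_cos_sq θ
  rw [hA]
  have h4 : (m r ^ 2 - sin r ^ 2) / (sin r ^ 2) ^ 2 * (sin r ^ 2 * θ') ^ 2 = (m r ^ 2 - sin r ^ 2) * θ' ^ 2 := by
    field_simp
  rw [h4]
  linear_combination (cos r ^ 2 * r' ^ 2 + sin r ^ 2 * θ' ^ 2) * sin_sq_add_cos_sq θ + r' ^ 2 * sin_sq_add_cos_sq r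

/-- meridian arcs (also through the poles) -/
theorem pathLen_meridian (m : ℝ → ℝ) (θ a b : ℝ) : PathLen m (polarPt a θ) (polarPt b θ) |b - a| := by
  refine pathLen_of_unit m (fun t => polarPt t θ) (contDiff_polarPt contDiff_id contDiff_const)
    (fun t => norm_polarPt _ _) (fun t => ?_) a b
  have h := hasDerivAt_polarPt (hasDerivAt_id' t) (hasDerivAt_const t θ)
  rw [h.deriv]
  unfold speed
  rw [norm_sq_E3]
  simp only [polarPt_zero, polarPt_one, Matrix.cons_val_zero, Matrix.cons_val_one,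
    Matrix.cons_val]
  have hA : sin t * cos θ * (cos t * 1 * sin θ + sin t * cos θ * 0) -
      sin t * sin θ * (cos t * 1 * cos θ - sin t * sin θ * 0) = 0 := by
    ring
  rw [hA]
  have : (cos t * 1 * cos θ - sin t * sin θ * 0) ^ 2 + (cos t * 1 * sin θ + sin t * cos θ * 0) ^ 2 + (sin t * 1) ^ 2 = 1 := by
    linear_combination (cos t) ^ 2 * sin_sq_add_cos_sq θ + sin_sq_add_cos_sq t
  rw [this]
  simp

/-! ### The geodesic -/

noncomputable def sl (σ l : ℝ) : ℝ := arcsin (σ * sin l)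

section
variable {σ : ℝ} (h0 : 0 < σ) (h1 : σ < 1)
include h0 h1

theorem abs_lt (l : ℝ) : -1 < σ * sin l ∧ σ * sin l < 1 := by
  have := neg_one_le_sin l
  have := sin_le_one l
  constructor <;> nlinarith

theorem sin_sl (l : ℝ) : sin (sl σ l) = σ * sin l :=
  sin_arcsin (abs_lt h0 h1 l).1.le (abs_lt h0 h1 l).2.le

theorem sl_mem (l : ℝ) : sl σ l ∈ Ioo (-(π / 2)) (π / 2) :=
  ⟨neg_pi_div_two_lt_arcsin.2 (abs_lt h0 h1 l).1, arcsin_lt_pi_div_two.2 (abs_lt h0 h1 l).2⟩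

theorem cos_sl_pos (l : ℝ) : 0 < cos (sl σ l) := cos_pos_of_mem_Ioo (sl_mem h0 h1 l)

theorem cos_sl_sq (l : ℝ) : cos (sl σ l) ^ 2 = 1 - σ ^ 2 * sin l ^ 2 := by
  rw [cos_sq', sin_sl h0 h1]; ring

theorem hasDerivAt_sl (l : ℝ) : HasDerivAt (sl σ) (σ * cos l / cos (sl σ l)) l := by
  have h2 : HasDerivAt (fun l : ℝ => σ * sin l) (σ * cos l) l := (hasDerivAt_sin l).const_mul σ
  have h3 := (hasDerivAt_arcsin (abs_lt h0 h1 l).1.ne' (abs_lt h0 h1 l).2.ne).comp l h2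
  refine h3.congr_deriv ?_
  have : √(1 - (σ * sin l) ^ 2) = cos (sl σ l) := by
    rw [show 1 - (σ * sin l) ^ 2 = cos (sl σ l) ^ 2 by rw [cos_sl_sq h0 h1]; ring,
      sqrt_sq (cos_sl_pos h0 h1 l).le]
  rw [this]
  ring

theorem contDiff_sl : ContDiff ℝ ⊤ (sl σ) := by
  rw [contDiff_iff_contDiffAt]
  intro l
  have h2 : ContDiffAt ℝ ⊤ (fun l : ℝ => σ * sin l) l := by fun_prop
  exact (contDiffAt_arcsin (abs_lt h0 h1 l).1.ne' (abs_lt h0 h1 l).2.ne).comp l h2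

end

noncomputable def el (σ l : ℝ) : ℝ := 4 / 5 * (2 * l - 3 * σ ^ 2 * (l / 2 - sin l * cos l / 2) +
  2 * σ ^ 4 * (3 / 8 * l - 3 / 8 * (sin l * cos l) - 1 / 4 * (sin l ^ 3 * cos l)))

theorem hasDerivAt_el {σ : ℝ} (h0 : 0 < σ) (h1 : σ < 1) (l : ℝ) :
    HasDerivAt (el σ) (P (sl σ l)) l := by
  unfold el
  have hid := hasDerivAt_id' l
  have hsc : HasDerivAt (fun l : ℝ => sin l * cos l) (cos l * cos l + sin l * (-sin l)) l :=
    (hasDerivAt_sin l).mul (hasDerivAt_cos l)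
  have hs3 : HasDerivAt (fun l : ℝ => sin l ^ 3 * cos l) (3 * sin l ^ 2 * cos l * cos l + sin l ^ 3 * (-sin l)) l := by
    refine (((hasDerivAt_sin l).fun_pow 3).fun_mul (hasDerivAt_cos l)).congr_deriv ?_
    norm_num
  refine ((((hid.const_mul 2).fun_sub (((hid.div_const 2).fun_sub (hsc.div_const 2)).const_mul (3 * σ ^ 2))).fun_add
    ((((hid.const_mul (3 / 8)).fun_sub (hsc.const_mul (3 / 8))).fun_sub (hs3.const_mul (1 / 4))).const_mul
      (2 * σ ^ 4))).const_mul (4 / 5)).congr_deriv ?_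
  unfold P
  have e4 : cos (sl σ l) ^ 4 = (cos (sl σ l) ^ 2) ^ 2 := by ring
  rw [e4, cos_sl_sq h0 h1]
  have hc : cos l ^ 2 = 1 - sin l ^ 2 := by rw [cos_sq']
  have hc2 : cos l * cos l = 1 - sin l ^ 2 := by rw [← hc]; ring
  have hc3 : 3 * sin l ^ 2 * cos l * cos l = 3 * sin l ^ 2 * (1 - sin l ^ 2) := by rw [← hc]; ring
  rw [hc2, hc3]
  ring

theorem contDiff_el (σ : ℝ) : ContDiff ℝ ⊤ (el σ) := by
  unfold el
  fun_prop

/-- a full package for one Clairaut geodesic starting on the equator -/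
theorem exists_geodesic {σ : ℝ} (h0 : 0 < σ) (h1 : σ < 1) :
    ∃ L : ℝ → ℝ, ContDiff ℝ ⊤ L ∧ (∀ l, L (el σ l) = l) ∧ (∀ t, el σ (L t) = t) ∧
      ∀ t, HasDerivAt L (1 / P (sl σ (L t))) t :=
  exists_inverse (el σ) (fun l => P (sl σ l)) (contDiff_el σ) (hasDerivAt_el h0 h1) (7/10) (by norm_num)
    (fun l => P_ge _)

section geo
variable {κ σ : ℝ} {L : ℝ → ℝ}

noncomputable def rr (σ : ℝ) (L : ℝ → ℝ) (t : ℝ) : ℝ := π / 2 + X (sl σ (L t))
noncomputable def tt (κ : ℝ) (L : ℝ → ℝ) (t : ℝ) : ℝ := th κ (L t)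
noncomputable def gam (κ σ : ℝ) (L : ℝ → ℝ) (t : ℝ) : E3 := polarPt (rr σ L t) (tt κ L t)

theorem contDiff_th (hκ : 0 < κ) : ContDiff ℝ ∞ (th κ) := by
  unfold th
  have hD : ∀ l, cos l ^ 2 + κ * sin l ^ 2 ≠ 0 := by
    intro l
    apply ne_of_gt
    rcases eq_or_ne (cos l) 0 with h | h
    · have := sin_sq_add_cos_sq l
      rw [h] at this ⊢
      nlinarith
    · positivity
  have : ContDiff ℝ ∞ (fun l : ℝ => (1 - κ) * (sin l * cos l) / (cos l ^ 2 + κ * sin l ^ 2)) := by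
    apply ContDiff.div
    · fun_prop
    · fun_prop
    · exact hD
  have h2 := this.arctan
  fun_prop

theorem rr_mem (h0 : 0 < σ) (h1 : σ < 1) (t : ℝ) : rr σ L t ∈ Ioo 0 π := by
  unfold rr
  have h := sl_mem h0 h1 (L t)
  have ha := X_strictMono h.1
  have hb := X_strictMono h.2
  rw [X_neg, X_pi_div_two] at ha
  rw [X_pi_div_two] at hb
  exact ⟨by linarith, by linarith⟩

theorem prof_rr (t : ℝ) : prof (rr σ L t) = 4 / 5 * cos (sl σ (L t)) := by
  unfold prof rr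
  rw [add_sub_cancel_left, Y_X]

theorem deriv_prof_rr (h0 : 0 < σ) (h1 : σ < 1) (t : ℝ) :
    deriv prof (rr σ L t) = -(4 / 5) * (σ * sin (L t)) / P (sl σ (L t)) := by
  rw [(hasDerivAt_prof _).deriv]
  unfold rr
  rw [add_sub_cancel_left, Y_X, sin_sl h0 h1]

theorem hasDerivAt_rr (h0 : 0 < σ) (h1 : σ < 1) (hL : ∀ t, HasDerivAt L (1 / P (sl σ (L t))) t) (t : ℝ) :
    HasDerivAt (rr σ L) (σ * cos (L t) / cos (sl σ (L t))) t := by
  unfold rr
  have h2 : HasDerivAt (fun t => sl σ (L t)) (σ * cos (L t) / cos (sl σ (L t)) * (1 / P (sl σ (L t)))) t :=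
    (hasDerivAt_sl h0 h1 (L t)).comp t (hL t)
  have h3 : HasDerivAt (fun t => X (sl σ (L t)))
    (P (sl σ (L t)) * (σ * cos (L t) / cos (sl σ (L t)) * (1 / P (sl σ (L t))))) t :=
    (hasDerivAt_X _).comp t h2
  refine (h3.const_add (π / 2)).congr_deriv ?_
  have := (P_pos (sl σ (L t))).ne'
  field_simp

theorem hasDerivAt_tt (hκ : 0 < κ) (h0 : 0 < σ) (h1 : σ < 1) (hσ : σ ^ 2 = 1 - κ ^ 2)
    (hL : ∀ t, HasDerivAt L (1 / P (sl σ (L t))) t) (t : ℝ) :
    HasDerivAt (tt κ L) (5 / 4 * κ / cos (sl σ (L t)) ^ 2) t := by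
  unfold tt
  refine ((hasDerivAt_th κ hκ (L t)).comp t (hL t)).congr_deriv ?_
  have e1 : cos (L t) ^ 2 + κ ^ 2 * sin (L t) ^ 2 = cos (sl σ (L t)) ^ 2 := by
    rw [cos_sl_sq h0 h1, hσ, cos_sq']; ring
  rw [e1]
  have hc := (cos_sl_pos h0 h1 (L t)).ne'
  have hP := (P_pos (sl σ (L t))).ne'
  have e2 : 1 / cos (sl σ (L t)) ^ 2 - 1 + 2 * cos (sl σ (L t)) ^ 2 =
      5 / 4 * P (sl σ (L t)) / cos (sl σ (L t)) ^ 2 := by
    unfold P; field_simp
  rw [e2]
  field_simp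

theorem hasDerivAt_V (h0 : 0 < σ) (h1 : σ < 1) (hσ : σ ^ 2 = 1 - κ ^ 2) (l : ℝ) :
    HasDerivAt (fun l => σ * cos l / cos (sl σ l)) (-σ * κ ^ 2 * sin l / cos (sl σ l) ^ 3) l := by
  have hc := (cos_sl_pos h0 h1 l).ne'
  have h2 := (hasDerivAt_sl h0 h1 l).cos
  refine (((hasDerivAt_cos l).const_mul σ).fun_div h2 hc).congr_deriv ?_
  rw [sin_sl h0 h1]
  field_simp
  rw [cos_sl_sq h0 h1, cos_sq', show σ ^ 2 = 1 - κ ^ 2 from hσ]
  ring

theorem hasDerivAt_W (h0 : 0 < σ) (h1 : σ < 1) (l : ℝ) :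
    HasDerivAt (fun l => 5 / 4 * κ / cos (sl σ l) ^ 2)
      (5 / 2 * κ * σ ^ 2 * sin l * cos l / cos (sl σ l) ^ 4) l := by
  have hc := (cos_sl_pos h0 h1 l).ne'
  have h2 := ((hasDerivAt_sl h0 h1 l).cos).fun_pow 2
  refine ((hasDerivAt_const l (5 / 4 * κ)).fun_div h2 (pow_ne_zero 2 hc)).congr_deriv ?_
  rw [sin_sl h0 h1]
  field_simp
  ring

theorem isUnitGeodesic_gam (hκ : 0 < κ) (h0 : 0 < σ) (h1 : σ < 1) (hσ : σ ^ 2 = 1 - κ ^ 2)
    (hLc : ContDiff ℝ ⊤ L) (hL : ∀ t, HasDerivAt L (1 / P (sl σ (L t))) t) :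
    IsUnitGeodesic prof (gam κ σ L) := by
  have cr : ContDiff ℝ ⊤ (rr σ L) := by
    unfold rr
    exact contDiff_const.add (contDiff_X.comp ((contDiff_sl h0 h1).comp hLc))
  have ct : ContDiff ℝ 2 (tt κ L) :=
    ((contDiff_th hκ).of_le ENat.LEInfty.out).comp (hLc.of_le le_top)
  have dr := hasDerivAt_rr h0 h1 hL
  have dt := hasDerivAt_tt hκ h0 h1 hσ hL
  have edr : deriv (rr σ L) = fun t => σ * cos (L t) / cos (sl σ (L t)) := funext fun t => (dr t).deriv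
  have edt : deriv (tt κ L) = fun t => 5 / 4 * κ / cos (sl σ (L t)) ^ 2 := funext fun t => (dt t).deriv
  refine ⟨contDiff_polarPt (cr.of_le le_top) ct, fun t => norm_polarPt _ _, fun t => ?_, fun t _ => ?_⟩
  · have h2 : HasDerivAt (gam κ σ L) _ t := hasDerivAt_polarPt (dr t) (dt t)
    rw [h2.deriv]
    unfold gam
    rw [speed_polar _ _ _ _ _ (rr_mem h0 h1 t), prof_rr]
    have hc := (cos_sl_pos h0 h1 (L t)).ne'
    rw [sqrt_eq_one]
    field_simp
    rw [cos_sl_sq h0 h1, hσ, cos_sq']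
    ring
  · refine ⟨rr σ L, tt κ L, cr.contDiffAt.of_le le_top, ct.contDiffAt,
      Eventually.of_forall fun u => ⟨rr_mem h0 h1 u, rfl⟩, ?_, ?_⟩
    · rw [edr, edt, prof_rr, deriv_prof_rr h0 h1]
      have h2 : HasDerivAt (fun t => σ * cos (L t) / cos (sl σ (L t))) _ t :=
        (hasDerivAt_V h0 h1 hσ (L t)).comp t (hL t)
      rw [h2.deriv]
      have hc := (cos_sl_pos h0 h1 (L t)).ne'
      have hP := (P_pos (sl σ (L t))).ne'
      field_simp
    · rw [edr, edt, prof_rr, deriv_prof_rr h0 h1]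
      have h2 : HasDerivAt (fun t => 5 / 4 * κ / cos (sl σ (L t)) ^ 2) _ t :=
        (hasDerivAt_W h0 h1 (L t)).comp t (hL t)
      rw [h2.deriv]
      have hc := (cos_sl_pos h0 h1 (L t)).ne'
      have hP := (P_pos (sl σ (L t))).ne'
      field_simp
      ring

end geo

/-! ### Local minimality -/

theorem hasDerivAt_coord {α : ℝ → E3} {v : E3} {t : ℝ} (h : HasDerivAt α v t) (i : Fin 3) :
    HasDerivAt (fun t => α t i) (v i) t := by
  exact (EuclideanSpace.proj i : E3 →L[ℝ] ℝ).hasFDerivAt.comp_hasDerivAt t h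

theorem orth_of_sphere {α : ℝ → E3} {v : E3} {t : ℝ} (h : HasDerivAt α v t) (hS : ∀ t, ‖α t‖ = 1) :
    α t 0 * v 0 + α t 1 * v 1 + α t 2 * v 2 = 0 := by
  have h1 : ∀ t, α t 0 ^ 2 + α t 1 ^ 2 + α t 2 ^ 2 = 1 := by
    intro t
    rw [← norm_sq_E3, hS]; norm_num
  have h2 := (((hasDerivAt_coord h 0).fun_pow 2).fun_add ((hasDerivAt_coord h 1).fun_pow 2)).fun_add
    ((hasDerivAt_coord h 2).fun_pow 2)
  have h3 : (fun t => α t 0 ^ 2 + α t 1 ^ 2 + α t 2 ^ 2) = fun _ => (1:ℝ) := funext h1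
  rw [h3] at h2
  have h4 := h2.unique (hasDerivAt_const t (1:ℝ))
  norm_num at h4
  linarith

/-- the weight -/
noncomputable def wt (m : ℝ → ℝ) (ν : ℝ) (x : ℝ) : ℝ := √(1 - ν ^ 2 / (max (m x) ν) ^ 2)

theorem continuous_wt {m : ℝ → ℝ} (hm : Continuous m) {ν : ℝ} (hν : 0 < ν) : Continuous (wt m ν) := by
  unfold wt
  have h : ∀ x, (max (m x) ν) ^ 2 ≠ 0 := fun x => by
    have : 0 < max (m x) ν := lt_max_of_lt_right hν
    positivity
  exact (continuous_const.sub (continuous_const.div ((hm.max continuous_const).pow 2) h)).sqrt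

noncomputable def SS (m : ℝ → ℝ) (ν : ℝ) (r : ℝ) : ℝ := ∫ x in (π / 2)..r, wt m ν x

theorem hasDerivAt_SS {m : ℝ → ℝ} (hm : Continuous m) {ν : ℝ} (hν : 0 < ν) (r : ℝ) :
    HasDerivAt (SS m ν) (wt m ν r) r :=
  intervalIntegral.integral_hasDerivAt_right ((continuous_wt hm hν).intervalIntegrable _ _)
    ((continuous_wt hm hν).stronglyMeasurableAtFilter _ _) (continuous_wt hm hν).continuousAt

noncomputable def cal (m : ℝ → ℝ) (ν : ℝ) (x : E3) : ℝ :=
  ν * arctan (x 1 / x 0) + SS m ν (arccos (-x 2))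

theorem speed_sq {m : ℝ → ℝ} {x v : E3} (hx : ‖x‖ = 1) (ho : x 0 * v 0 + x 1 * v 1 + x 2 * v 2 = 0)
    (hρ : 0 < x 0 ^ 2 + x 1 ^ 2) :
    speed m x v = √(v 2 ^ 2 / (x 0 ^ 2 + x 1 ^ 2) +
      m (arccos (-x 2)) ^ 2 * (x 0 * v 1 - x 1 * v 0) ^ 2 / (x 0 ^ 2 + x 1 ^ 2) ^ 2) := by
  unfold speed
  congr 1
  rw [norm_sq_E3]
  have h1 : x 0 ^ 2 + x 1 ^ 2 + x 2 ^ 2 = 1 := by rw [← norm_sq_E3, hx]; norm_num
  obtain ⟨ρ, hρ'⟩ : ∃ ρ, ρ = x 0 ^ 2 + x 1 ^ 2 := ⟨_, rfl⟩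
  obtain ⟨A, hA⟩ : ∃ A, A = x 0 * v 1 - x 1 * v 0 := ⟨_, rfl⟩
  have hkey : (v 0 ^ 2 + v 1 ^ 2 + v 2 ^ 2) * ρ = v 2 ^ 2 + A ^ 2 := by
    have e1 : (v 0 ^ 2 + v 1 ^ 2) * ρ = (x 0 * v 0 + x 1 * v 1) ^ 2 + A ^ 2 := by
      rw [hρ', hA]; ring
    have e2 : x 0 * v 0 + x 1 * v 1 = - (x 2 * v 2) := by linarith
    have e3 : x 2 ^ 2 = 1 - ρ := by rw [hρ']; linarith
    rw [e2] at e1
    calc (v 0 ^ 2 + v 1 ^ 2 + v 2 ^ 2) * ρ = (v 0 ^ 2 + v 1 ^ 2) * ρ + v 2 ^ 2 * ρ := by ring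
      _ = x 2 ^ 2 * v 2 ^ 2 + A ^ 2 + v 2 ^ 2 * ρ := by rw [e1]; ring
      _ = v 2 ^ 2 + A ^ 2 := by rw [e3]; ring
  rw [← hρ', ← hA]
  rw [← hρ'] at hρ
  have : v 0 ^ 2 + v 1 ^ 2 + v 2 ^ 2 = (v 2 ^ 2 + A ^ 2) / ρ := by
    rw [eq_div_iff hρ.ne', hkey]
  rw [this]
  field_simp
  ring

theorem norm_le_speed {m : ℝ → ℝ} {ν : ℝ} (hν : 0 < ν) (hν1 : ν ≤ 1) {x v : E3} (hx : ‖x‖ = 1)
    (ho : x 0 * v 0 + x 1 * v 1 + x 2 * v 2 = 0)
    (hρ : 0 < x 0 ^ 2 + x 1 ^ 2) (hm : ν ≤ m (arccos (-x 2))) : ν * ‖v‖ ≤ speed m x v := by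
  have e : ‖v‖ = √(v 2 ^ 2 / (x 0 ^ 2 + x 1 ^ 2) +
      1 ^ 2 * (x 0 * v 1 - x 1 * v 0) ^ 2 / (x 0 ^ 2 + x 1 ^ 2)) := by
    have h := speed_sq (m := fun r => sin r) hx ho hρ
    have h1 : x 0 ^ 2 + x 1 ^ 2 + x 2 ^ 2 = 1 := by rw [← norm_sq_E3, hx]; norm_num
    have h2 : sin (arccos (-x 2)) ^ 2 = x 0 ^ 2 + x 1 ^ 2 := by
      rw [sin_arccos, sq_sqrt (by nlinarith)]
      linarith
    have h3 : speed (fun r => sin r) x v = ‖v‖ := by
      unfold speed
      rw [h2, sub_self, zero_div, zero_mul, add_zero, sqrt_sq (norm_nonneg v)]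
    rw [h3, h2] at h
    rw [h]
    congr 1
    field_simp
  rw [speed_sq hx ho hρ, e]
  have hx1 : x 0 ^ 2 + x 1 ^ 2 ≤ 1 := by
    have h1 : x 0 ^ 2 + x 1 ^ 2 + x 2 ^ 2 = 1 := by rw [← norm_sq_E3, hx]; norm_num
    nlinarith [sq_nonneg (x 2)]
  apply le_sqrt_of_sq_le
  rw [mul_pow, sq_sqrt (by positivity)]
  obtain ⟨ρ, hρ'⟩ : ∃ ρ, ρ = x 0 ^ 2 + x 1 ^ 2 := ⟨_, rfl⟩
  obtain ⟨A, hA⟩ : ∃ A, A = x 0 * v 1 - x 1 * v 0 := ⟨_, rfl⟩
  obtain ⟨M, hM⟩ : ∃ M, M = m (arccos (-x 2)) := ⟨_, rfl⟩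
  rw [← hρ', ← hA, ← hM]
  rw [← hρ'] at hρ hx1
  rw [← hM] at hm
  have a1 : ν ^ 2 * (v 2 ^ 2 / ρ) ≤ v 2 ^ 2 / ρ := by
    have h3 : 0 ≤ v 2 ^ 2 / ρ := by positivity
    have h4 : ν ^ 2 ≤ 1 := by nlinarith
    nlinarith
  have a2 : ν ^ 2 * (1 ^ 2 * A ^ 2 / ρ) ≤ M ^ 2 * A ^ 2 / ρ ^ 2 := by
    rw [show ν ^ 2 * (1 ^ 2 * A ^ 2 / ρ) = ν ^ 2 * ρ * A ^ 2 / ρ ^ 2 by field_simp]
    apply div_le_div_of_nonneg_right _ (by positivity)
    apply mul_le_mul_of_nonneg_right _ (sq_nonneg A)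
    nlinarith
  nlinarith

theorem cal_le_speed {m : ℝ → ℝ} {ν : ℝ} (hν : 0 < ν) {x v : E3} (hx : ‖x‖ = 1)
    (ho : x 0 * v 0 + x 1 * v 1 + x 2 * v 2 = 0)
    (hρ : 0 < x 0 ^ 2 + x 1 ^ 2) (hm : ν ≤ m (arccos (-x 2))) :
    ν * ((x 0 * v 1 - x 1 * v 0) / (x 0 ^ 2 + x 1 ^ 2)) +
      wt m ν (arccos (-x 2)) * (v 2 / √(1 - x 2 ^ 2)) ≤ speed m x v := by
  rw [speed_sq hx ho hρ]
  apply le_sqrt_of_sq_le
  have h1 : x 0 ^ 2 + x 1 ^ 2 + x 2 ^ 2 = 1 := by rw [← norm_sq_E3, hx]; norm_num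
  have h2 : 1 - x 2 ^ 2 = x 0 ^ 2 + x 1 ^ 2 := by linarith
  rw [h2]
  obtain ⟨M, hM⟩ : ∃ M, M = m (arccos (-x 2)) := ⟨_, rfl⟩
  rw [← hM] at hm
  have hM0 : 0 < M := lt_of_lt_of_le hν hm
  have hw : wt m ν (arccos (-x 2)) ^ 2 = 1 - ν ^ 2 / M ^ 2 := by
    unfold wt
    rw [← hM, max_eq_left hm, sq_sqrt]
    rw [sub_nonneg, div_le_one (by positivity)]
    nlinarith
  obtain ⟨w, hw'⟩ : ∃ w, w = wt m ν (arccos (-x 2)) := ⟨_, rfl⟩
  rw [← hw'] at hw
  rw [← hw', ← hM]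
  obtain ⟨ρ, hρ'⟩ : ∃ ρ, ρ = √(x 0 ^ 2 + x 1 ^ 2) := ⟨_, rfl⟩
  have hρ2 : x 0 ^ 2 + x 1 ^ 2 = ρ ^ 2 := by rw [hρ', sq_sqrt hρ.le]
  have hρ0 : 0 < ρ := by rw [hρ']; exact sqrt_pos.2 hρ
  rw [← hρ', hρ2]
  obtain ⟨A, hA⟩ : ∃ A, A = x 0 * v 1 - x 1 * v 0 := ⟨_, rfl⟩
  rw [← hA]
  obtain ⟨a, ha⟩ : ∃ a, a = v 2 / ρ := ⟨_, rfl⟩
  obtain ⟨b, hb⟩ : ∃ b, b = M * A / ρ ^ 2 := ⟨_, rfl⟩
  obtain ⟨c, hc⟩ : ∃ c, c = ν / M := ⟨_, rfl⟩
  have e1 : v 2 ^ 2 / ρ ^ 2 + M ^ 2 * A ^ 2 / (ρ ^ 2) ^ 2 = a ^ 2 + b ^ 2 := by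
    rw [ha, hb]; field_simp
  have e2 : ν * (A / ρ ^ 2) = c * b := by rw [hb, hc]; field_simp
  have e3 : w ^ 2 = 1 - c ^ 2 := by rw [hw, hc]; field_simp
  rw [e1, e2, ← ha]
  have e4 : a ^ 2 + b ^ 2 - (c * b + w * a) ^ 2 = (c * a - w * b) ^ 2 := by
    have : a ^ 2 + b ^ 2 = (a ^ 2 + b ^ 2) * (c ^ 2 + w ^ 2) := by rw [e3]; ring
    rw [this]; ring
  nlinarith [sq_nonneg (c * a - w * b)]

theorem hasDerivAt_cal {m : ℝ → ℝ} (hmc : Continuous m) {ν : ℝ} (hν : 0 < ν) {α : ℝ → E3} {v : E3} {t : ℝ}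
    (h : HasDerivAt α v t) (h0 : 0 < α t 0) (h2l : -1 < α t 2) (h2r : α t 2 < 1) :
    HasDerivAt (fun t => cal m ν (α t))
      (ν * ((α t 0 * v 1 - α t 1 * v 0) / (α t 0 ^ 2 + α t 1 ^ 2)) +
      wt m ν (arccos (-α t 2)) * (v 2 / √(1 - α t 2 ^ 2))) t := by
  unfold cal
  have d0 := hasDerivAt_coord h 0
  have d1 := hasDerivAt_coord h 1
  have d2 := hasDerivAt_coord h 2
  have a1 := ((d1.fun_div d0 h0.ne').arctan).const_mul ν
  have hac : HasDerivAt arccos (-(1 / √(1 - (-α t 2) ^ 2))) (-α t 2) := by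
    apply hasDerivAt_arccos
    · linarith
    · linarith
  have a2 := HasDerivAt.comp (h₂ := arccos) t hac d2.fun_neg
  have a3 := HasDerivAt.comp (h₂ := SS m ν) t (hasDerivAt_SS hmc hν (arccos (-α t 2))) a2
  refine (a1.fun_add a3).congr_deriv ?_
  have hρ : 0 < α t 0 ^ 2 + α t 1 ^ 2 := by positivity
  congr 1
  · congr 1
    have : 1 + (α t 1 / α t 0) ^ 2 = (α t 0 ^ 2 + α t 1 ^ 2) / α t 0 ^ 2 := by field_simp
    rw [this]
    field_simp
  · congr 1
    rw [neg_sq]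
    ring

/-- good neighbourhood of `p` -/
def Good (m : ℝ → ℝ) (ν δ : ℝ) (p : E3) : Prop :=
  ∀ x : E3, ‖x - p‖ ≤ δ → 0 < x 0 ∧ -1 < x 2 ∧ x 2 < 1 ∧ ν ≤ m (arccos (-x 2))

theorem arc_bound {m : ℝ → ℝ} (hmc : Continuous m) {ν δ : ℝ} (hν : 0 < ν) (hν1 : ν ≤ 1) {p : E3}
    (hG : Good m ν δ p) (α : ℝ → E3) (hα : ContDiff ℝ 1 α) (hS : ∀ t, ‖α t‖ = 1)
    (hi : IntervalIntegrable (fun t => speed m (α t) (deriv α t)) volume 0 1) (u : ℝ) (hu0 : 0 ≤ u) (hu1 : u ≤ 1)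
    (hin : ∀ t ∈ Ioo 0 u, ‖α t - p‖ ≤ δ) :
    (‖α 0 - p‖ ≤ δ → ‖α u - p‖ ≤ δ → cal m ν (α u) - cal m ν (α 0) ≤ ∫ t in (0:ℝ)..u, speed m (α t) (deriv α t)) ∧
      ν * ‖α u - α 0‖ ≤ ∫ t in (0:ℝ)..u, speed m (α t) (deriv α t) := by
  have hd : ∀ t, HasDerivAt α (deriv α t) t := fun t => (hα.differentiable (by norm_num) t).hasDerivAt
  have hint : IntegrableOn (fun t => speed m (α t) (deriv α t)) (Icc 0 u) := by
    have h1 : IntervalIntegrable (fun t => speed m (α t) (deriv α t)) volume 0 u :=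
      hi.mono_set (by rw [uIcc_of_le hu0, uIcc_of_le (by norm_num)]; exact Icc_subset_Icc le_rfl hu1)
    rwa [intervalIntegrable_iff_integrableOn_Icc_of_le hu0] at h1
  constructor
  · intro hp0 hpu
    have hin' : ∀ t ∈ Icc 0 u, ‖α t - p‖ ≤ δ := by
      intro t ht
      rcases eq_or_lt_of_le ht.1 with h | h
      · rw [← h]; exact hp0
      · rcases eq_or_lt_of_le ht.2 with h' | h'
        · rw [h']; exact hpu
        · exact hin t ⟨h, h'⟩
    refine intervalIntegral.sub_le_integral_of_hasDeriv_right_of_le hu0 (g := fun t => cal m ν (α t))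
      (g' := fun t => ν * ((α t 0 * deriv α t 1 - α t 1 * deriv α t 0) / (α t 0 ^ 2 + α t 1 ^ 2)) +
      wt m ν (arccos (-α t 2)) * (deriv α t 2 / √(1 - α t 2 ^ 2))) ?_ ?_ hint ?_
    · intro t ht
      obtain ⟨g0, g1, g2, g3⟩ := hG _ (hin' t ht)
      exact (hasDerivAt_cal hmc hν (hd t) g0 g1 g2).continuousAt.continuousWithinAt
    · intro t ht
      obtain ⟨g0, g1, g2, g3⟩ := hG _ (hin t ht)
      exact (hasDerivAt_cal hmc hν (hd t) g0 g1 g2).hasDerivWithinAt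
    · intro t ht
      obtain ⟨g0, g1, g2, g3⟩ := hG _ (hin t ht)
      exact cal_le_speed hν (hS t) (orth_of_sphere (hd t) hS) (by positivity) g3
  · obtain ⟨e, he⟩ : ∃ e, e = α u - α 0 := ⟨_, rfl⟩
    have key : ν * inner ℝ e (α u) - ν * inner ℝ e (α 0) ≤ ∫ t in (0:ℝ)..u, ‖e‖ * speed m (α t) (deriv α t) := by
      refine intervalIntegral.sub_le_integral_of_hasDeriv_right_of_le hu0 (g := fun t => ν * inner ℝ e (α t))
        (g' := fun t => ν * inner ℝ e (deriv α t)) ?_ ?_ (hint.const_mul _) ?_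
      · have := hα.continuous
        fun_prop
      · intro t ht
        have h1 : HasDerivAt (fun t => inner ℝ e (α t)) (inner ℝ e (deriv α t)) t := by
          have := (hasDerivAt_const t e).inner ℝ (hd t)
          simpa using this
        exact (h1.const_mul ν).hasDerivWithinAt
      · intro t ht
        obtain ⟨g0, g1, g2, g3⟩ := hG _ (hin t ht)
        have h1 := norm_le_speed hν hν1 (hS t) (orth_of_sphere (hd t) hS) (by positivity) g3
        have h2 := real_inner_le_norm e (deriv α t)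
        have h3 := norm_nonneg e
        calc ν * inner ℝ e (deriv α t) ≤ ν * (‖e‖ * ‖deriv α t‖) := by gcongr
          _ = ‖e‖ * (ν * ‖deriv α t‖) := by ring
          _ ≤ _ := by gcongr
    rw [intervalIntegral.integral_const_mul, ← mul_sub, ← inner_sub_right, ← he, real_inner_self_eq_norm_sq] at key
    rw [← he]
    rcases eq_or_lt_of_le (norm_nonneg e) with h | h
    · rw [← h, mul_zero]
      exact intervalIntegral.integral_nonneg hu0 fun t _ => speed_nonneg _ _ _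
    · nlinarith

theorem path_bound {m : ℝ → ℝ} (hmc : Continuous m) {ν δ : ℝ} (hν : 0 < ν) (hν1 : ν ≤ 1) {p : E3}
    (hG : Good m ν δ p) {x y : E3} {ℓ : ℝ} (h : PathLen m x y ℓ) :
    ‖x - p‖ ≤ δ → ν * (δ - ‖x - p‖) ≤ ℓ ∨ (‖y - p‖ ≤ δ ∧ cal m ν y - cal m ν x ≤ ℓ ∧ ν * ‖y - x‖ ≤ ℓ) := by
  induction h with
  | arc α hα hS hi =>
    intro hx
    by_cases hall : ∀ t ∈ Icc (0:ℝ) 1, ‖α t - p‖ ≤ δ
    · right
      have := arc_bound hmc hν hν1 hG α hα hS hi 1 (by norm_num) le_rfl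
        (fun t ht => hall t ⟨ht.1.le, ht.2.le⟩)
      have h1 := hall 1 ⟨by norm_num, le_rfl⟩
      exact ⟨h1, this.1 hx h1, this.2⟩
    · left
      push Not at hall
      obtain ⟨t₁, ht₁, hlt⟩ := hall
      have hcont : Continuous (fun t => ‖α t - p‖) := by
        have := hα.continuous
        fun_prop
      have hcpt : IsCompact (Icc (0:ℝ) 1 ∩ (fun t => ‖α t - p‖) ⁻¹' (Ici δ)) :=
        isCompact_Icc.inter_right (isClosed_Ici.preimage hcont)
      obtain ⟨u, hu, hmin⟩ := hcpt.exists_isLeast ⟨t₁, ht₁, hlt.le⟩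
      have hin : ∀ t ∈ Ioo 0 u, ‖α t - p‖ ≤ δ := by
        intro t ht
        by_contra hcon
        push Not at hcon
        have := hmin ⟨⟨ht.1.le, ht.2.le.trans hu.1.2⟩, hcon.le⟩
        linarith [ht.2]
      have h2 := (arc_bound hmc hν hν1 hG α hα hS hi u hu.1.1 hu.1.2 hin).2
      have h3 : ∫ t in (0:ℝ)..u, speed m (α t) (deriv α t) ≤ ∫ t in (0:ℝ)..1, speed m (α t) (deriv α t) := by
        refine intervalIntegral.integral_mono_interval le_rfl hu.1.1 hu.1.2 ?_ hi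
        exact Eventually.of_forall fun t => speed_nonneg _ _ _
      have h4 : δ ≤ ‖α u - p‖ := hu.2
      have h5 : ‖α u - p‖ ≤ ‖α u - α 0‖ + ‖α 0 - p‖ := by
        have := norm_add_le (α u - α 0) (α 0 - p)
        simpa using this
      nlinarith
  | @trans x y z a b h₁ h₂ ih₁ ih₂ =>
    intro hx
    have hb := h₂.nonneg
    rcases ih₁ hx with h | ⟨hy, hc, hn⟩
    · left; linarith
    · have h5 : ‖y - p‖ ≤ ‖y - x‖ + ‖x - p‖ := by
        have := norm_add_le (y - x) (x - p)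
        simpa using this
      rcases ih₂ hy with h | ⟨hz, hc', hn'⟩
      · left
        nlinarith
      · right
        have h6 : ‖z - x‖ ≤ ‖z - y‖ + ‖y - x‖ := by
          have := norm_add_le (z - y) (y - x)
          simpa using this
        refine ⟨hz, by linarith, by nlinarith⟩

/-! ### The comparison and the result -/

theorem exists_good : ∃ δ > 0, Good prof (2 / 25) δ (polarPt (π / 2) 0) := by
  have hopen : IsOpen {x : E3 | 0 < x 0 ∧ -1 < x 2 ∧ x 2 < 1 ∧ 2 / 25 < prof (arccos (-x 2))} := by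
    have hm : Continuous prof := contDiff_prof.continuous
    have c0 : Continuous (fun x : E3 => x 0) := by fun_prop
    have c2 : Continuous (fun x : E3 => x 2) := by fun_prop
    have c3 : Continuous (fun x : E3 => prof (arccos (-x 2))) :=
      hm.comp (continuous_arccos.comp c2.neg)
    refine (isOpen_lt continuous_const c0).inter ((isOpen_lt continuous_const c2).inter
      ((isOpen_lt c2 continuous_const).inter (isOpen_lt continuous_const c3)))
  have hmem : polarPt (π / 2) 0 ∈ {x : E3 | 0 < x 0 ∧ -1 < x 2 ∧ x 2 < 1 ∧ 2 / 25 < prof (arccos (-x 2))} := by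
    simp only [Set.mem_ofPred_eq, polarPt_zero, polarPt_two, sin_pi_div_two, cos_zero, cos_pi_div_two, neg_zero,
      arccos_zero, prof_equator]
    norm_num
  obtain ⟨δ, hδ, hsub⟩ := Metric.isOpen_iff.1 hopen _ hmem
  refine ⟨δ / 2, by linarith, fun x hx => ?_⟩
  have : x ∈ Metric.ball (polarPt (π / 2) 0) δ := by
    rw [Metric.mem_ball, dist_eq_norm]; linarith
  obtain ⟨a, b, c, d⟩ := hsub this
  exact ⟨a, b, c, d.le⟩

section
variable {κ σ : ℝ} {L : ℝ → ℝ}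

theorem el_zero : el σ 0 = 0 := by simp [el]

theorem gam_zero (h0 : L 0 = 0) : gam κ σ L 0 = polarPt (π / 2) 0 := by
  unfold gam rr tt
  rw [h0]
  simp [sl, X_zero, th]

theorem cal_gam (t : ℝ) (m : ℝ → ℝ) (ν : ℝ) (hr : rr σ L t ∈ Ioo 0 π) (hθ : tt κ L t ∈ Ioo (-(π / 2)) (π / 2)) :
    cal m ν (gam κ σ L t) = ν * tt κ L t + SS m ν (rr σ L t) := by
  unfold cal gam
  rw [polarPt_zero, polarPt_one, polarPt_two, neg_neg, arccos_cos hr.1.le hr.2.le,
    mul_div_mul_left _ _ (sin_pos_of_mem_Ioo hr).ne', ← tan_eq_sin_div_cos, arctan_tan hθ.1 hθ.2]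

theorem hasDerivAt_H (hκ : 0 < κ) (h0 : 0 < σ) (h1 : σ < 1) (hσ : σ ^ 2 = 1 - κ ^ 2)
    (hL : ∀ t, HasDerivAt L (1 / P (sl σ (L t))) t) (t : ℝ) (hcos : 0 ≤ cos (L t)) :
    HasDerivAt (fun t => 4 / 5 * κ * tt κ L t + SS prof (4 / 5 * κ) (rr σ L t)) 1 t := by
  have hm : Continuous prof := contDiff_prof.continuous
  have a1 := (hasDerivAt_tt hκ h0 h1 hσ hL t).const_mul (4 / 5 * κ)
  have a2 := HasDerivAt.comp (h₂ := SS prof (4 / 5 * κ)) t
    (hasDerivAt_SS hm (show 0 < 4 / 5 * κ by positivity) (rr σ L t)) (hasDerivAt_rr h0 h1 hL t)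
  refine (a1.fun_add a2).congr_deriv ?_
  have hc := cos_sl_pos h0 h1 (L t)
  have hc2 := cos_sl_sq h0 h1 (L t)
  have hcos2 : cos (sl σ (L t)) ^ 2 = κ ^ 2 + σ ^ 2 * cos (L t) ^ 2 := by
    rw [hc2, sin_sq]; linear_combination -hσ
  have hge : κ ≤ cos (sl σ (L t)) := by
    apply le_of_sq_le_sq _ hc.le
    rw [hcos2]; nlinarith [sq_nonneg (σ * cos (L t))]
  have hw : wt prof (4 / 5 * κ) (rr σ L t) = σ * cos (L t) / cos (sl σ (L t)) := by
    unfold wt
    rw [prof_rr, max_eq_left (by linarith)]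
    have : 1 - (4 / 5 * κ) ^ 2 / (4 / 5 * cos (sl σ (L t))) ^ 2 = (σ * cos (L t) / cos (sl σ (L t))) ^ 2 := by
      have hc' := hc.ne'
      field_simp
      linear_combination hcos2
    rw [this, sqrt_sq (by positivity)]
  rw [hw]
  have hc' := hc.ne'
  field_simp
  linear_combination -hcos2
end

theorem P_le (s : ℝ) : P s ≤ 8 / 5 := by
  unfold P
  nlinarith [sq_nonneg (cos s), cos_sq_le_one s, sq_nonneg (cos s ^ 2), mul_nonneg (sq_nonneg (cos s)) (sub_nonneg.2 (cos_sq_le_one s))]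

theorem X_lower (s : ℝ) (hs : 0 ≤ s) : 8 / 5 * s - 4 / 5 * s ^ 3 ≤ X s := by
  have hmono : Monotone (fun s => X s - (8 / 5 * s - 4 / 5 * s ^ 3)) := by
    apply monotone_of_hasDerivAt_nonneg (f' := fun s => P s - (8 / 5 * 1 - 4 / 5 * (3 * s ^ 2)))
    · intro s
      have h3 : HasDerivAt (fun s : ℝ => s ^ 3) (3 * s ^ 2) s := by
        simpa using hasDerivAt_pow 3 s
      exact (hasDerivAt_X s).fun_sub (((hasDerivAt_id' s).const_mul (8 / 5)).fun_sub (h3.const_mul (4 / 5)))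
    · intro s
      have h1 : sin s ^ 2 ≤ s ^ 2 := by
        have := sin_sq_le_sq (x := s)
        simpa using this
      have h2 : cos s ^ 4 = (1 - sin s ^ 2) ^ 2 := by rw [← cos_sq']; ring
      simp only [Pi.zero_apply]
      unfold P
      rw [h2, cos_sq']
      nlinarith [sq_nonneg (sin s ^ 2)]
  have := hmono hs
  simp [X_zero] at this
  linarith

theorem el_lower {σ : ℝ} (h0 : 0 < σ) (h1 : σ < 1) (μ : ℝ) (hμ : 0 ≤ μ) :
    el σ π - 8 / 5 * μ ≤ el σ (π - μ) := by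
  have hmono : Monotone (fun l => 8 / 5 * l - el σ l) := by
    apply monotone_of_hasDerivAt_nonneg (f' := fun l => 8 / 5 * 1 - P (sl σ l))
    · intro l
      exact ((hasDerivAt_id' l).const_mul (8 / 5)).fun_sub (hasDerivAt_el h0 h1 l)
    · intro l
      have := P_le (sl σ l)
      simp only [Pi.zero_apply]
      linarith
  have := hmono (show π - μ ≤ π by linarith)
  simp only at this
  linarith

theorem length_compare {σ : ℝ} (h0 : 0 < σ) (hσ : σ ^ 2 = 99 / 100) :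
    π - X (sl σ (π - 19 / 1000)) < el σ (π - 19 / 1000) := by
  have h1 : σ < 1 := by nlinarith
  have hσl : 99498 / 100000 < σ := by nlinarith
  have e1 := el_lower h0 h1 (19 / 1000) (by norm_num)
  have e2 : el σ π = 100006 / 100000 * π := by
    unfold el
    rw [sin_pi, show σ ^ 4 = (σ ^ 2) ^ 2 by ring, hσ]
    ring
  have e3 : (189 / 10000 : ℝ) ≤ sl σ (π - 19 / 1000) := by
    unfold sl
    rw [sin_pi_sub, le_arcsin_iff_sin_le' ⟨by linarith [pi_gt_three], by linarith [pi_gt_three]⟩]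
    have a1 : sin (189 / 10000) ≤ 189 / 10000 := sin_le (by norm_num)
    have a2 := sin_gt_sub_cube (x := 19 / 1000) (by norm_num)
    nlinarith
  have e4 := X_lower (189 / 10000) (by norm_num)
  have e5 : X (189 / 10000) ≤ X (sl σ (π - 19 / 1000)) := X_strictMono.monotone e3
  have e6 := pi_gt_d2
  rw [e2] at e1
  norm_num at e4 e1 e6 ⊢
  linarith

theorem arctan_le_self' {x : ℝ} (hx : 0 ≤ x) : arctan x ≤ x := by
  have := le_tan (arctan_nonneg.2 hx) (arctan_lt_pi_div_two x)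
  rwa [tan_arctan] at this

theorem angle_compare : th (1 / 10) (π - 19 / 1000) < π := by
  unfold th
  rw [sin_pi_sub, cos_pi_sub]
  obtain ⟨a, ha⟩ : ∃ a, a = sin (19 / 1000) := ⟨_, rfl⟩
  obtain ⟨b, hb⟩ : ∃ b, b = cos (19 / 1000) := ⟨_, rfl⟩
  rw [← ha, ← hb]
  have a1 : a ≤ 19 / 1000 := by rw [ha]; exact sin_le (by norm_num)
  have a2 : 18998 / 1000000 < a := by
    have := sin_gt_sub_cube (x := 19 / 1000) (by norm_num)
    rw [ha]; norm_num at this ⊢; linarith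
  have b1 : b ≤ 1 := by rw [hb]; exact cos_le_one _
  have b2 : 9998 / 10000 ≤ b := by
    have := one_sub_sq_div_two_le_cos (x := 19 / 1000)
    rw [hb]; norm_num at this ⊢; linarith
  have hb0 : 0 < b := by linarith
  have ha0 : 0 < a := by linarith
  have e1 : (1 - 1 / 10) * (a * -b) / ((-b) ^ 2 + 1 / 10 * a ^ 2) = - ((9 / 10) * (a * b) / (b ^ 2 + 1 / 10 * a ^ 2)) := by
    rw [← neg_div]; congr 1 <;> ring
  rw [e1, arctan_neg]
  have e2 : arctan ((9 / 10) * (a * b) / (b ^ 2 + 1 / 10 * a ^ 2)) ≤ 1711 / 100000 := by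
    have h1 : (9 / 10) * (a * b) / (b ^ 2 + 1 / 10 * a ^ 2) ≤ 1711 / 100000 := by
      rw [div_le_iff₀ (by positivity)]
      nlinarith [mul_pos hb0 hb0]
    have h2 : arctan ((9 / 10) * (a * b) / (b ^ 2 + 1 / 10 * a ^ 2)) ≤ (9 / 10) * (a * b) / (b ^ 2 + 1 / 10 * a ^ 2) :=
      arctan_le_self' (by positivity)
    linarith
  have e3 : π < 3.15 := pi_lt_d2
  have e4 : (18998 / 1000000) * (9998 / 10000) ≤ a * b := by
    apply mul_le_mul a2.le b2 (by norm_num) ha0.le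
  norm_num at e3 e4 ⊢
  nlinarith


/-- abstract cut time argument -/
theorem exists_cutTime (D : ℝ → ℝ) (hle : ∀ t, 0 ≤ t → D t ≤ t)
    (hlip : ∀ s t, D t ≤ D s + |t - s|) {ε T : ℝ} (hε : 0 < ε) (hDε : D ε = ε) (hT : 0 < T) (hDT : D T < T) :
    ∃ t₀, 0 < t₀ ∧ t₀ < T ∧ D t₀ = t₀ ∧ ∀ t, t₀ < t → D t ≠ t := by
  have hdown : ∀ s t, 0 ≤ s → s ≤ t → D t = t → D s = s := by
    intro s t hs hst ht
    apply le_antisymm (hle s hs)
    have := hlip s t
    rw [ht, abs_of_nonneg (by linarith)] at this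
    linarith
  obtain ⟨A, hA⟩ : ∃ A : Set ℝ, A = {t | 0 ≤ t ∧ D t = t} := ⟨_, rfl⟩
  have hmem : ∀ t, t ∈ A ↔ 0 ≤ t ∧ D t = t := by intro t; rw [hA]; rfl
  have hεA : ε ∈ A := (hmem ε).2 ⟨hε.le, hDε⟩
  have hlt : ∀ t ∈ A, t < T := by
    intro t ht
    by_contra hcon
    push Not at hcon
    have := hdown T t hT.le hcon ((hmem t).1 ht).2
    linarith
  have hbdd : BddAbove A := ⟨T, fun t ht => (hlt t ht).le⟩
  have hεle : ε ≤ sSup A := le_csSup hbdd hεA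
  have hD : D (sSup A) = sSup A := by
    apply le_antisymm (hle _ (by linarith))
    refine le_of_forall_pos_le_add fun η hη => ?_
    obtain ⟨t, ht, hlt'⟩ := exists_lt_of_lt_csSup ⟨ε, hεA⟩ (show sSup A - η / 2 < sSup A by linarith)
    have h1 := hlip (sSup A) t
    have h2 : t ≤ sSup A := le_csSup hbdd ht
    rw [((hmem t).1 ht).2, abs_of_nonpos (by linarith)] at h1
    linarith
  refine ⟨sSup A, by linarith, hlt _ ((hmem _).2 ⟨by linarith, hD⟩), hD, fun t ht hDt => ?_⟩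
  have : t ∈ A := (hmem t).2 ⟨by linarith, hDt⟩
  have := le_csSup hbdd this
  linarith

theorem exists_local {κ σ : ℝ} {L : ℝ → ℝ} (hκ : κ = 1 / 10) (h0 : 0 < σ) (h1 : σ < 1) (hσ : σ ^ 2 = 1 - κ ^ 2)
    (hLc : ContDiff ℝ ⊤ L) (hL0 : L 0 = 0) (hL : ∀ t, HasDerivAt L (1 / P (sl σ (L t))) t) :
    ∃ ε > 0, ∀ ℓ, PathLen prof (polarPt (π / 2) 0) (gam κ σ L ε) ℓ → ε ≤ ℓ := by
  have hκ0 : 0 < κ := by rw [hκ]; norm_num
  obtain ⟨δ, hδ, hG⟩ := exists_good
  have hLcont : Continuous L := hLc.continuous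
  have htt : Continuous (tt κ L) := continuous_iff_continuousAt.2 fun t =>
    (hasDerivAt_tt hκ0 h0 h1 hσ hL t).continuousAt
  have hopen : IsOpen {t : ℝ | 0 < cos (L t) ∧ -(π / 2) < tt κ L t ∧ tt κ L t < π / 2} := by
    refine (isOpen_lt continuous_const (continuous_cos.comp hLcont)).inter
      ((isOpen_lt continuous_const htt).inter (isOpen_lt htt continuous_const))
  have ht0 : tt κ L 0 = 0 := by unfold tt; rw [hL0]; simp [th]
  have hr0 : rr σ L 0 = π / 2 := by unfold rr; rw [hL0]; simp [sl, X_zero]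
  have hmem : (0:ℝ) ∈ {t : ℝ | 0 < cos (L t) ∧ -(π / 2) < tt κ L t ∧ tt κ L t < π / 2} := by
    refine ⟨?_, ?_, ?_⟩
    · rw [hL0, cos_zero]; norm_num
    · rw [ht0]; linarith [pi_pos]
    · rw [ht0]; linarith [pi_pos]
  obtain ⟨η, hη, hsub⟩ := Metric.isOpen_iff.1 hopen _ hmem
  have hin : ∀ t, 0 ≤ t → t < η → 0 < cos (L t) ∧ -(π / 2) < tt κ L t ∧ tt κ L t < π / 2 := by
    intro t ht htη
    apply hsub
    rw [Metric.mem_ball, dist_zero_right, norm_eq_abs, abs_of_nonneg ht]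
    exact htη
  refine ⟨min (η / 2) (2 / 25 * δ), by positivity, fun ℓ hℓ => ?_⟩
  obtain ⟨ε, hε⟩ : ∃ ε, ε = min (η / 2) (2 / 25 * δ) := ⟨_, rfl⟩
  rw [← hε] at hℓ ⊢
  have hε0 : 0 < ε := by rw [hε]; positivity
  have hε1 : ε ≤ η / 2 := by rw [hε]; exact min_le_left _ _
  have hε2 : ε ≤ 2 / 25 * δ := by rw [hε]; exact min_le_right _ _
  have hν : (2 / 25 : ℝ) = 4 / 5 * κ := by rw [hκ]; norm_num
  rcases path_bound contDiff_prof.continuous (by norm_num) (by norm_num) hG hℓ (by simp [hδ.le]) with h | ⟨_, h, _⟩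
  · rw [sub_self, norm_zero, sub_zero] at h
    linarith
  · have e0 : cal prof (2 / 25) (polarPt (π / 2) 0) = 0 := by
      rw [← gam_zero (κ := κ) (σ := σ) hL0, cal_gam _ _ _ (rr_mem h0 h1 0) (by
        rw [ht0]; exact ⟨by linarith [pi_pos], by linarith [pi_pos]⟩), ht0, hr0]
      simp [SS]
    have e1 : cal prof (2 / 25) (gam κ σ L ε) = ε := by
      rw [cal_gam _ _ _ (rr_mem h0 h1 ε) (hin ε hε0.le (by linarith)).2, hν]
      have hd : ∀ t ∈ Icc 0 ε, HasDerivWithinAt (fun t => 4 / 5 * κ * tt κ L t + SS prof (4 / 5 * κ) (rr σ L t)) 1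
          (Icc 0 ε) t := fun t ht =>
        (hasDerivAt_H hκ0 h0 h1 hσ hL t (hin t ht.1 (by linarith [ht.2])).1.le).hasDerivWithinAt
      have key : ∀ t ∈ Icc 0 ε, (fun t => 4 / 5 * κ * tt κ L t + SS prof (4 / 5 * κ) (rr σ L t)) t = t := by
        apply eq_of_has_deriv_right_eq (f' := fun _ => (1:ℝ))
        · intro t ht
          exact (hasDerivAt_H hκ0 h0 h1 hσ hL t (hin t ht.1 (by linarith [ht.2])).1.le).hasDerivWithinAt
        · intro t ht
          exact (hasDerivAt_id' t).hasDerivWithinAt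
        · intro t ht
          exact (hd t ht).continuousWithinAt
        · fun_prop
        · simp only [ht0, hr0]
          simp [SS]
      exact key ε ⟨hε0.le, le_rfl⟩
    rw [e0, e1] at h
    linarith

/-- **Counterexample.** There is a 2-sphere of revolution, symmetric under reflection in the
equator, with `m' > 0` on `(0, π/2)` and (even strictly) increasing half period function, and a
point `p` on the half meridian `θ = 0` whose cut locus is not contained in the opposite half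
meridian `θ = π`. -/
theorem result : ∃ m : ℝ → ℝ, ContDiff ℝ ∞ m ∧ (∀ r, m (-r) = -m r) ∧ (∀ r, m (π - r) = m r) ∧
    deriv m 0 = 1 ∧ (∀ r ∈ Ioo 0 π, 0 < m r) ∧ (∀ r ∈ Ioo 0 (π / 2), 0 < deriv m r) ∧
    StrictMonoOn (halfPeriod m) (Ioo 0 (m (π / 2))) ∧
    ∃ p ∈ halfMeridian 0, ¬ (cutLocus m p ⊆ halfMeridian π) := by
  refine ⟨prof, contDiff_prof.of_le le_top, prof_neg, prof_pi_sub, deriv_prof_zero, prof_pos, deriv_prof_pos,
    halfPeriod_strictMono, polarPt (π / 2) 0, ⟨π / 2, ⟨by linarith [pi_pos], by linarith [pi_pos]⟩, rfl⟩, ?_⟩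
  intro hsub
  obtain ⟨κ, hκ⟩ : ∃ κ : ℝ, κ = 1 / 10 := ⟨_, rfl⟩
  obtain ⟨σ, hσd⟩ : ∃ σ : ℝ, σ = √(99 / 100) := ⟨_, rfl⟩
  have hκ0 : 0 < κ := by rw [hκ]; norm_num
  have h0 : 0 < σ := by rw [hσd]; positivity
  have hσ' : σ ^ 2 = 99 / 100 := by rw [hσd]; exact sq_sqrt (by norm_num)
  have hσ : σ ^ 2 = 1 - κ ^ 2 := by rw [hσ', hκ]; norm_num
  have h1 : σ < 1 := by nlinarith
  obtain ⟨L, hLc, hL1, hL2, hL⟩ := exists_geodesic h0 h1
  have hL0 : L 0 = 0 := by have := hL1 0; rwa [el_zero] at this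
  have hLmono : StrictMono L := strictMono_of_hasDerivAt_pos hL fun t => one_div_pos.2 (P_pos _)
  have hgeo := isUnitGeodesic_gam hκ0 h0 h1 hσ hLc hL
  have hg0 : gam κ σ L 0 = polarPt (π / 2) 0 := gam_zero hL0
  have hseg : ∀ a b, PathLen prof (gam κ σ L a) (gam κ σ L b) |b - a| :=
    pathLen_of_unit prof _ (hgeo.1.of_le (by norm_num)) hgeo.2.1 hgeo.2.2.1
  obtain ⟨ε, hε, hloc⟩ := exists_local hκ h0 h1 hσ hLc hL0 hL
  obtain ⟨T, hT⟩ : ∃ T, T = el σ (π - 19 / 1000) := ⟨_, rfl⟩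
  have hLT : L T = π - 19 / 1000 := by rw [hT, hL1]
  have hT0 : 0 < T := by
    have : L 0 < L T := by rw [hL0, hLT]; linarith [pi_gt_three]
    exact hLmono.lt_iff_lt.1 this
  have hp0 : ∀ t, PathLen prof (polarPt (π / 2) 0) (gam κ σ L t) |t - 0| := by
    intro t; rw [← hg0]; exact hseg 0 t
  obtain ⟨t₀, ht0, htT, hD, hcut⟩ := exists_cutTime (fun t => rdist prof (polarPt (π / 2) 0) (gam κ σ L t))
    (by
      intro t ht
      have := rdist_le (hp0 t)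
      rwa [sub_zero, abs_of_nonneg ht] at this)
    (by
      intro s t
      have h2 := rdist_triangle (hp0 s) (hseg s t)
      have h3 := rdist_le (hseg s t)
      linarith) hε
    (by
      apply le_antisymm
      · have := rdist_le (hp0 ε)
        rwa [sub_zero, abs_of_nonneg hε.le] at this
      · exact le_csInf ⟨_, hp0 ε⟩ hloc) hT0
    (by
      have hup := pathLen_meridian prof 0 (π / 2) π
      have hpole : polarPt π 0 = polarPt π (tt κ L T) := by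
        unfold polarPt; simp
      rw [hpole] at hup
      have hdown := pathLen_meridian prof (tt κ L T) π (rr σ L T)
      have := rdist_le (hup.trans hdown)
      have hlen := length_compare h0 hσ'
      rw [← hT] at hlen
      have hr : rr σ L T = π / 2 + X (sl σ (π - 19 / 1000)) := by unfold rr; rw [hLT]
      have hrm := rr_mem (L := L) h0 h1 T
      rw [abs_of_nonneg (by linarith [pi_pos]), abs_of_nonpos (by linarith [hrm.2])] at this
      have e : polarPt (rr σ L T) (tt κ L T) = gam κ σ L T := rfl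
      rw [e] at this
      rw [hr] at this
      linarith)
  have hq : gam κ σ L t₀ ∈ cutLocus prof (polarPt (π / 2) 0) :=
    ⟨gam κ σ L, hgeo, hg0, t₀, ht0, rfl, hD, hcut⟩
  obtain ⟨r, hr, hr2⟩ := hsub hq
  have hthm : StrictMono (th κ) := by
    apply strictMono_of_hasDerivAt_pos (hasDerivAt_th κ hκ0)
    intro l
    have hE : 0 < cos l ^ 2 + κ ^ 2 * sin l ^ 2 := by
      rcases eq_or_ne (cos l) 0 with h | h
      · have := sin_sq_add_cos_sq l
        rw [h] at this ⊢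
        nlinarith [sq_pos_of_pos hκ0]
      · positivity
    obtain ⟨c, hc⟩ : ∃ c, c = cos l ^ 2 + κ ^ 2 * sin l ^ 2 := ⟨_, rfl⟩
    rw [← hc] at hE ⊢
    have : 1 / c - 1 + 2 * c = (1 - c + 2 * c ^ 2) / c := by field_simp
    rw [this]
    have : 0 < 1 - c + 2 * c ^ 2 := by nlinarith [sq_nonneg (c - 1 / 4)]
    positivity
  have ha : 0 < tt κ L t₀ := by
    have h2 : th κ (L 0) < th κ (L t₀) := hthm (hLmono ht0)
    rw [hL0] at h2
    have h3 : th κ 0 = 0 := by simp [th]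
    rw [h3] at h2
    exact h2
  have hb : tt κ L t₀ < π := by
    have h2 : th κ (L t₀) < th κ (L T) := hthm (hLmono htT)
    rw [hLT] at h2
    have h3 := angle_compare
    rw [← hκ] at h3
    exact h2.trans h3
  have hc := rr_mem (L := L) h0 h1 t₀
  have h4 : 0 < gam κ σ L t₀ 1 := by
    unfold gam
    rw [polarPt_one]
    exact mul_pos (sin_pos_of_mem_Ioo hc) (sin_pos_of_mem_Ioo ⟨ha, hb⟩)
  rw [hr2, polarPt_one, sin_pi, mul_zero] at h4
  exact lt_irrefl _ h4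

end Pool.Agent.Results.MP_e92360_gt.CutBranch
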